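import Pool.Agent.Lib.MP_f8c884_nt.Chain

/-!
# The general case

`card_primes`: `Chebyshev.psi_ge`, `Chebyshev.psi_le_primeCounting_mul_log`: the number of primes `≤ z`
is at least `(z log 2 - log (z + 1)) / log z ≥ z / (2 log z)` for large `z`; remove the at most `6 s`
primes below `6 s`.

`exc_general`: let `δ = 1 / (12 s)`, `z = ⌊log X / 8⌋₊`, `P` = the primes in `[6 s, z]`,
`T = Nat.sqrt X + 1`, `T ≤ Y ≤ X`. `∏ p ≤ primorial z ≤ 4 ^ z ≤ X ^ (1/2) ≤ Y` (`primorial_le_4_pow`).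
`n = ⌊log X / (4 log z)⌋₊ - 1`, so `(z ^ (n + 1)) ^ 2 ≤ X ^ (1/2) ≤ Y`, `n ≥ log X / (4 loglog X) - 2`.
`blk_le_split`: `blk s Y ≤ 3 X (2/3) ^ |P| + 6 z X exp (-δ n) ≤ X exp (- 2 c log X / loglog X)` for
`c > 0` small and large `X` (all the other factors are at most powers of `log X`). `exc_le`:
`exc s X ≤ 3 T + 1 + (log X / log 2 + 1) X exp (- 2 c log X / loglog X) ≤ X exp (-c log X / loglog X)
= X ^ (1 - c / loglog X)`.
-/

set_option autoImplicit false

open Finset

namespace Pool.Agent.Lib.MP_f8c884_nt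

theorem card_primes (s : ℕ) : ∃ z₀ : ℕ, ∀ z : ℕ, z₀ ≤ z →
    (z : ℝ) / (3 * Real.log z) ≤ ((Icc (6 * s) z).filter Nat.Prime).card := by
  have h1 := Real.isLittleO_log_id_atTop.bound
    (show 0 < (1 / (20 * (6 * s + 1)) : ℝ) by positivity)
  have h2 := Filter.eventually_ge_atTop (100 : ℝ)
  have hall := (tendsto_natCast_atTop_atTop (R := ℝ)).eventually (h1.and h2)
  obtain ⟨z₀, hz₀⟩ := Filter.eventually_atTop.1 hall
  refine ⟨z₀, fun z hz => ?_⟩
  obtain ⟨h3, h4⟩ := hz₀ z hz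
  have hz0 : (0 : ℝ) < z := by linarith
  have hlz : 0 < Real.log z := Real.log_pos (by linarith)
  rw [Real.norm_of_nonneg hlz.le, id, Real.norm_of_nonneg hz0.le] at h3
  have h5 : (z : ℝ) * Real.log 2 - Real.log (z + 1) ≤ Nat.primeCounting z * Real.log z :=
    (Chebyshev.psi_ge z).trans (Chebyshev.psi_le_primeCounting_mul_log z)
  have h6 : Real.log ((z : ℝ) + 1) ≤ 1 + Real.log z := by
    have h7 : Real.log ((z : ℝ) + 1) ≤ Real.log (2 * z) :=
      Real.log_le_log (by linarith) (by linarith)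
    rw [Real.log_mul (by norm_num) hz0.ne'] at h7
    have := Real.log_two_lt_d9
    linarith
  have h8 : (Nat.primeCounting z : ℝ) ≤ ((Icc (6 * s) z).filter Nat.Prime).card + 6 * s := by
    have h9 : Nat.primeCounting z ≤ ((Icc (6 * s) z).filter Nat.Prime).card + 6 * s := by
      rw [Nat.primeCounting, Nat.primeCounting', Nat.count_eq_card_filter_range]
      have h10 : (range (z + 1)).filter Nat.Prime ⊆
          ((Icc (6 * s) z).filter Nat.Prime) ∪ range (6 * s) := by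
        intro p hp
        rw [mem_filter, mem_range] at hp
        rw [mem_union, mem_filter, mem_Icc, mem_range]
        by_cases h : p < 6 * s
        · exact Or.inr h
        · exact Or.inl ⟨⟨by omega, by omega⟩, hp.2⟩
      refine (card_le_card h10).trans ((card_union_le _ _).trans ?_)
      rw [card_range]
    exact_mod_cast h9
  rw [div_le_iff₀ (by positivity)]
  have h11 : (20 * (6 * s + 1) : ℝ) * Real.log z ≤ z := by
    have h12 : (20 * (6 * s + 1) : ℝ) * (1 / (20 * (6 * s + 1)) * z) = z := by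
      field_simp
    calc (20 * (6 * s + 1) : ℝ) * Real.log z
        ≤ (20 * (6 * s + 1) : ℝ) * (1 / (20 * (6 * s + 1)) * z) :=
          mul_le_mul_of_nonneg_left h3 (by positivity)
      _ = z := h12
  have h13 := Real.log_two_gt_d9
  have h14 : (Nat.primeCounting z : ℝ) * Real.log z ≤
      (((Icc (6 * s) z).filter Nat.Prime).card + 6 * s) * Real.log z :=
    mul_le_mul_of_nonneg_right h8 hlz.le
  have h15 : (z : ℝ) * Real.log 2 ≥ z * 0.69 := mul_le_mul_of_nonneg_left (by linarith) hz0.le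
  nlinarith

theorem exc_general {s : ℕ} (hs : 5 ≤ s) {B : ℕ → ℕ} (hB : IsBase s B)
    (hcop : ∀ p, p.Prime → 6 * s ≤ p → ∀ a, Nat.Coprime (2 * B a) p) :
    ∃ c : ℝ, 0 < c ∧ ∃ X₀ : ℕ, ∀ X : ℕ, X₀ ≤ X →
      (exc s X : ℝ) ≤ (X : ℝ) ^ (1 - c / Real.log (Real.log X)) := by
  obtain ⟨z₀, hz₀⟩ := card_primes s
  have hs' : (5 : ℝ) ≤ s := by exact_mod_cast hs
  obtain ⟨δ, hδ⟩ : ∃ δ : ℝ, δ = 1 / (12 * s) := ⟨_, rfl⟩
  have hδ0 : 0 < δ := by rw [hδ]; positivity
  have hδ1 : δ ≤ 1 / 60 := by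
    rw [hδ, div_le_div_iff₀ (by positivity) (by norm_num)]
    linarith
  obtain ⟨c, hc⟩ : ∃ c : ℝ, c = δ / 8 := ⟨_, rfl⟩
  have hc0 : 0 < c := by rw [hc]; positivity
  have hc1 : c ≤ 1 / 480 := by linarith
  have he1 : 0 < Real.exp 1 := Real.exp_pos 1
  have hl2 : 0 < Real.log 2 := Real.log_pos (by norm_num)
  have hl2' := Real.log_two_gt_d9
  have hl2'' := Real.log_two_lt_d9
  have heu := Real.exp_one_lt_d9
  have hA1 := (isLittleO_log_rpow_atTop (show (0 : ℝ) < 1 / 2 by norm_num)).bound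
    (show (0 : ℝ) < 1 by norm_num)
  have hA2 := ((isLittleO_pow_exp_pos_mul_atTop 4 hc0).bound
    (show (0 : ℝ) < 1 / 120 by norm_num))
  have hA2' := (tendsto_rpow_atTop (show (0 : ℝ) < 1 / 2 by norm_num)).eventually hA2
  have hA3 := Filter.eventually_ge_atTop (max 100 (16 * (z₀ : ℝ)))
  have hall := (Real.tendsto_log_atTop.comp (tendsto_natCast_atTop_atTop (R := ℝ))).eventually
    (hA1.and (hA2'.and hA3))
  obtain ⟨X₀, hX₀⟩ := Filter.eventually_atTop.1 (hall.and (Filter.eventually_ge_atTop 400))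
  refine ⟨c, hc0, X₀, fun X hX => ?_⟩
  obtain ⟨⟨h1, h2, h3⟩, h5'⟩ := hX₀ X hX
  simp only [Function.comp_apply] at h1 h2 h3
  have h5 : (400 : ℝ) ≤ X := by exact_mod_cast h5'
  have hX0 : (0 : ℝ) < X := by linarith
  obtain ⟨L, hL⟩ : ∃ L : ℝ, L = Real.log X := ⟨_, rfl⟩
  rw [← hL] at h1 h2 h3 ⊢
  have hL100 : 100 ≤ L := (le_max_left _ _).trans h3
  have hLz₀ : 16 * (z₀ : ℝ) ≤ L := (le_max_right _ _).trans h3
  have hL0 : 0 < L := by linarith
  have hXL : (X : ℝ) = Real.exp L := by rw [hL, Real.exp_log hX0]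
  obtain ⟨M, hM⟩ : ∃ M : ℝ, M = Real.log L := ⟨_, rfl⟩
  rw [← hM] at h1 ⊢
  have hM1 : 1 < M := by
    rw [hM, Real.lt_log_iff_exp_lt hL0]
    linarith
  rw [Real.norm_of_nonneg (by linarith), one_mul,
    Real.norm_of_nonneg (Real.rpow_nonneg hL0.le _), ← Real.sqrt_eq_rpow] at h1
  rw [← Real.sqrt_eq_rpow, Real.norm_of_nonneg (by positivity),
    Real.norm_of_nonneg (Real.exp_pos _).le] at h2
  have hsL : Real.sqrt L ^ 2 = L := Real.sq_sqrt hL0.le
  have hsL4 : Real.sqrt L ^ 4 = L ^ 2 := by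
    rw [show Real.sqrt L ^ 4 = (Real.sqrt L ^ 2) ^ 2 by ring, hsL]
  rw [hsL4] at h2
  have hsL10 : 10 ≤ Real.sqrt L := by
    rw [Real.le_sqrt' (by norm_num)]
    linarith
  obtain ⟨z, hz⟩ : ∃ z : ℕ, z = ⌊L / 8⌋₊ := ⟨_, rfl⟩
  have hzle : (z : ℝ) ≤ L / 8 := by
    rw [hz]
    exact Nat.floor_le (by positivity)
  have hzge : L / 8 < z + 1 := by
    rw [hz]
    exact Nat.lt_floor_add_one _
  have hz16 : L / 16 ≤ z := by linarith
  have hz5 : (5 : ℝ) ≤ z := by linarith
  have hzz₀ : z₀ ≤ z := by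
    have : (z₀ : ℝ) ≤ z := by linarith
    exact_mod_cast this
  have hlz0 : 1 < Real.log z := by
    rw [Real.lt_log_iff_exp_lt (by linarith)]
    linarith
  have hlzM : Real.log z ≤ M := by
    rw [hM]
    exact Real.log_le_log (by linarith) (by linarith)
  obtain ⟨P, hP⟩ : ∃ P : Finset ℕ, P = (Icc (6 * s) z).filter Nat.Prime := ⟨_, rfl⟩
  have hPm : ∀ p ∈ P, p.Prime ∧ 6 * s ≤ p ∧ p ≤ z := by
    intro p hp
    rw [hP, mem_filter, mem_Icc] at hp
    exact ⟨hp.2, hp.1.1, hp.1.2⟩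
  have hPc : L / (48 * M) ≤ P.card := by
    rw [hP]
    refine le_trans ?_ (hz₀ z hzz₀)
    rw [div_le_div_iff₀ (by positivity) (by positivity)]
    nlinarith [mul_le_mul hz16 hlzM (by linarith) (by linarith)]
  have hprod : (((∏ p ∈ P, p) : ℕ) : ℝ) ≤ Real.exp (L / 2) := by
    have h6 : ∏ p ∈ P, p ≤ primorial z := by
      rw [primorial]
      refine prod_le_prod_of_subset_of_one_le' ?_ ?_
      · intro p hp
        obtain ⟨hp1, hp2, hp3⟩ := hPm p hp
        rw [mem_filter, mem_range]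
        exact ⟨by omega, hp1⟩
      · intro p hp _
        rw [mem_filter] at hp
        exact hp.2.one_le
    have h7 : ((∏ p ∈ P, p : ℕ) : ℝ) ≤ (4 : ℝ) ^ z := by
      exact_mod_cast h6.trans (primorial_le_four_pow z)
    refine h7.trans ?_
    have h8 : (4 : ℝ) ^ z = Real.exp (z * (2 * Real.log 2)) := by
      rw [Real.exp_nat_mul]
      congr 1
      rw [two_mul, Real.exp_add, Real.exp_log (by norm_num)]
      norm_num
    rw [h8]
    apply Real.exp_le_exp.2
    nlinarith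
  obtain ⟨m, hm⟩ : ∃ m : ℕ, m = ⌊L / (4 * Real.log z)⌋₊ := ⟨_, rfl⟩
  have hmle : (m : ℝ) ≤ L / (4 * Real.log z) := by
    rw [hm]
    exact Nat.floor_le (by positivity)
  have hmge : L / (4 * Real.log z) < m + 1 := by
    rw [hm]
    exact Nat.lt_floor_add_one _
  have hm2 : 2 ≤ m := by
    rw [hm]
    apply Nat.le_floor
    rw [le_div_iff₀ (by positivity)]
    push_cast
    nlinarith
  have hmge' : L / (4 * M) < m + 1 := by
    refine lt_of_le_of_lt ?_ hmge
    exact div_le_div_of_nonneg_left hL0.le (by positivity) (by linarith)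
  have hzm : ((z : ℝ) ^ m) ^ 2 ≤ Real.exp (L / 2) := by
    have h6 : (z : ℝ) ^ m = Real.exp (m * Real.log z) := by
      rw [Real.exp_nat_mul, Real.exp_log (by linarith)]
    rw [h6, ← Real.exp_nat_mul]
    apply Real.exp_le_exp.2
    rw [le_div_iff₀ (by positivity)] at hmle
    push_cast
    nlinarith
  have hsX : Real.sqrt X = Real.exp (L / 2) := by
    rw [Real.exp_half, hXL]
  have hT : ∀ Y : ℕ, Nat.sqrt X + 1 ≤ Y → Real.exp (L / 2) ≤ Y := by
    intro Y hY
    have h8 : X < (Nat.sqrt X + 1) ^ 2 := Nat.lt_succ_sqrt' X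
    have h9 : X ≤ Y ^ 2 := h8.le.trans (Nat.pow_le_pow_left hY 2)
    rw [← hsX, Real.sqrt_le_left (by positivity)]
    exact_mod_cast h9
  have hbig : (20 : ℝ) ≤ Real.exp (L / 2) := by
    rw [← hsX, Real.le_sqrt' (by norm_num)]
    linarith
  obtain ⟨E₁, hE₁⟩ : ∃ E₁ : ℝ, E₁ = Real.exp (-(2 * c * L / M)) := ⟨_, rfl⟩
  have hE₁0 : 0 < E₁ := by rw [hE₁]; positivity
  have hE : ∀ Y, Nat.sqrt X + 1 ≤ Y → Y ≤ X →
      (blk s Y : ℝ) ≤ X * (20 * L) * E₁ := by
    intro Y hY hYX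
    have hY1 := hT Y hY
    have hY0 : (0 : ℝ) ≤ Y := Nat.cast_nonneg Y
    have hY20 : 20 ≤ Y := by
      have : (20 : ℝ) ≤ Y := hbig.trans hY1
      exact_mod_cast this
    have h10 := blk_le_split hs hB P (fun p hp => ⟨(hPm p hp).1, (hPm p hp).2.1⟩)
      (fun p hp => hcop p (hPm p hp).1 (hPm p hp).2.1) (Y := Y) (z := z) (n := m - 1) hY20
      (fun p hp => (hPm p hp).2.2) (by
        have h11 : (((∏ p ∈ P, p) : ℕ) : ℝ) ≤ Y := hprod.trans hY1
        exact_mod_cast h11) (by omega) (by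
      rw [show m - 1 + 1 = m by omega]
      have h11 : ((z : ℝ) ^ m) ^ 2 ≤ 3 * Y := by linarith
      exact_mod_cast h11)
    refine h10.trans ?_
    have hYX' : (Y : ℝ) ≤ X := by exact_mod_cast hYX
    rw [← hδ]
    have h12 : (1 - δ) ^ (m - 1) ≤ Real.exp 1 * E₁ := by
      have h13 : (1 - δ) ^ (m - 1) ≤ Real.exp (-δ) ^ (m - 1) := by
        refine pow_le_pow_left₀ (by linarith) ?_ _
        have := Real.add_one_le_exp (-δ)
        linarith
      refine h13.trans ?_
      rw [← Real.exp_nat_mul, hE₁, ← Real.exp_add]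
      apply Real.exp_le_exp.2
      have h14 : ((m - 1 : ℕ) : ℝ) = (m : ℝ) - 1 := by
        rw [Nat.cast_sub (by omega)]
        push_cast
        ring
      rw [h14]
      have h15 : -(2 * c * L / M) = -(δ * (L / (4 * M))) := by
        rw [hc]
        field_simp
        ring
      rw [h15]
      nlinarith
    have h12' : ((2 : ℝ) / 3) ^ P.card ≤ E₁ := by
      have h13 : ((2 : ℝ) / 3) ^ P.card ≤ Real.exp (-(1 / 3)) ^ P.card := by
        refine pow_le_pow_left₀ (by norm_num) ?_ _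
        have := Real.add_one_le_exp (-(1 / 3) : ℝ)
        linarith
      refine h13.trans ?_
      rw [← Real.exp_nat_mul, hE₁]
      apply Real.exp_le_exp.2
      have h15 : 2 * c * L / M = 2 * c * 48 * (L / (48 * M)) := by
        field_simp
      rw [h15]
      have h16 : 0 ≤ L / (48 * M) := by positivity
      nlinarith
    have h16 : 0 ≤ (1 - δ) ^ (m - 1) := pow_nonneg (by linarith) _
    have hz8 : (0 : ℝ) ≤ z := by linarith
    have h17 : 3 * (Y : ℝ) * (2 / 3) ^ P.card ≤ 3 * X * E₁ :=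
      mul_le_mul (by linarith) h12' (by positivity) (by linarith)
    have h18 : 6 * (Y : ℝ) * (1 - δ) ^ (m - 1) ≤ 6 * X * (Real.exp 1 * E₁) :=
      mul_le_mul (by linarith) h12 h16 (by linarith)
    have h19 : (z : ℝ) * (6 * (Y : ℝ) * (1 - δ) ^ (m - 1)) ≤ L / 8 * (6 * X * (Real.exp 1 * E₁)) :=
      mul_le_mul hzle h18 (by positivity) (by linarith)
    refine (add_le_add h17 h19).trans ?_
    have h20 : 3 * X * E₁ + L / 8 * (6 * X * (Real.exp 1 * E₁)) =
        X * (3 + 6 / 8 * Real.exp 1 * L) * E₁ := by ring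
    rw [h20]
    refine mul_le_mul_of_nonneg_right (mul_le_mul_of_nonneg_left ?_ hX0.le) hE₁0.le
    nlinarith
  have hfin := exc_le (s := s) (T := Nat.sqrt X + 1) (n := Nat.log 2 X + 1) (X := X)
    (E := X * (20 * L) * E₁) (by positivity) (by
      have h20 : 1 ≤ Nat.sqrt X := by
        rw [Nat.le_sqrt']
        omega
      omega) hE (Nat.lt_pow_succ_log_self (by norm_num) X)
  refine hfin.trans ?_
  have hlog : (Nat.log 2 X : ℝ) ≤ L / Real.log 2 := by
    have := Real.natLog_le_logb X 2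
    rw [Real.logb, ← hL] at this
    exact_mod_cast this
  have hlog' : (Nat.log 2 X : ℝ) + 1 ≤ 3 * L := by
    have h21 : L / Real.log 2 ≤ 2 * L := by
      rw [div_le_iff₀ hl2]
      nlinarith
    linarith
  have hsqn : (Nat.sqrt X : ℝ) ≤ Real.sqrt X := Real.nat_sqrt_le_real_sqrt
  push_cast
  have hx1 : (X : ℝ) ^ (1 - c / M) = X * Real.exp (-(c * L / M)) := by
    rw [Real.rpow_def_of_pos hX0, ← hL]
    rw [hXL, ← Real.exp_add]
    congr 1
    field_simp
    ring
  have hcLM : c * L / M ≤ c * L := div_le_self (by positivity) hM1.le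
  have hp1 : 3 * ((Nat.sqrt X : ℝ) + 1) + 1 ≤ (X : ℝ) ^ (1 - c / M) / 2 := by
    rw [hx1]
    have h30 : (X : ℝ) * Real.exp (-(c * L / M)) ≥ Real.sqrt X * 14 := by
      have h31 : (X : ℝ) = Real.sqrt X * Real.exp (L / 2) := by
        rw [hsX, ← Real.exp_add, hXL]
        congr 1
        ring
      have h32 : (14 : ℝ) ≤ Real.exp (L / 2) * Real.exp (-(c * L / M)) := by
        rw [← Real.exp_add]
        have := Real.add_one_le_exp (L / 2 + -(c * L / M))
        nlinarith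
      calc (X : ℝ) * Real.exp (-(c * L / M))
          = Real.sqrt X * (Real.exp (L / 2) * Real.exp (-(c * L / M))) := by
            nth_rewrite 1 [h31]
            ring
        _ ≥ Real.sqrt X * 14 := mul_le_mul_of_nonneg_left h32 (Real.sqrt_nonneg _)
    have h33 : 20 ≤ Real.sqrt X := by rw [hsX]; exact hbig
    linarith
  have hp2 : ((Nat.log 2 X : ℝ) + 1) * (X * (20 * L) * E₁) ≤
      (X : ℝ) ^ (1 - c / M) / 2 := by
    rw [hx1]
    have h40 : E₁ = Real.exp (-(c * L / M)) * Real.exp (-(c * L / M)) := by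
      rw [hE₁, ← Real.exp_add]
      congr 1
      ring
    have h41 : 120 * L ^ 2 * Real.exp (-(c * L / M)) ≤ 1 := by
      have h42 : 120 * L ^ 2 ≤ Real.exp (c * Real.sqrt L) := by linarith
      have h43 : c * Real.sqrt L ≤ c * L / M := by
        rw [le_div_iff₀ (by linarith)]
        have : Real.sqrt L * M ≤ L := by nlinarith
        nlinarith
      have h44 : Real.exp (-(c * L / M)) ≤ Real.exp (-(c * Real.sqrt L)) :=
        Real.exp_le_exp.2 (by linarith)
      calc 120 * L ^ 2 * Real.exp (-(c * L / M))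
          ≤ Real.exp (c * Real.sqrt L) * Real.exp (-(c * Real.sqrt L)) :=
            mul_le_mul h42 h44 (Real.exp_pos _).le (Real.exp_pos _).le
        _ = 1 := by rw [← Real.exp_add]; simp
    have h45 : 0 < X * Real.exp (-(c * L / M)) := by positivity
    calc ((Nat.log 2 X : ℝ) + 1) * (X * (20 * L) * E₁)
        ≤ (3 * L) * (X * (20 * L) * E₁) := mul_le_mul_of_nonneg_right hlog' (by positivity)
      _ = X * Real.exp (-(c * L / M)) * (120 * L ^ 2 * Real.exp (-(c * L / M))) / 2 := by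
          rw [h40]
          ring
      _ ≤ X * Real.exp (-(c * L / M)) * 1 / 2 := by
          have := mul_le_mul_of_nonneg_left h41 h45.le
          linarith
      _ = X * Real.exp (-(c * L / M)) / 2 := by ring
  linarith

end Pool.Agent.Lib.MP_f8c884_nt
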