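import Pool.Agent.Lib.MP_f8c884_nt.Chain

/-!
# The case of a second universal prime: power saving

Let `δ = 1 / (12 s)`. For `X` large put `T = Nat.sqrt X + 1`; for `T ≤ Y ≤ X` let
`n = ⌊log X / (4 log q)⌋ - 1 ≥ 1`, so `(q ^ (n + 1)) ^ 2 ≤ X ^ (1/2) ≤ Y`, and
`(1 - δ) ^ n ≤ exp (- δ n) ≤ exp (2 δ) X ^ (- δ / (4 log q))`. `blk_le_univ`, `exc_le` with
`2 ^ n > X`, `n = Nat.log 2 X + 1`: `exc s X ≤ 3 T + 1 + (log X / log 2 + 1) * 6 X e X ^ (-2 c)`
`≤ X ^ (1 - c)` for large `X`, where `c = δ / (8 log q) < 1/4`.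
-/

set_option autoImplicit false

open Finset

namespace Pool.Agent.Lib.MP_f8c884_nt

theorem exc_power {s : ℕ} (hs : 5 ≤ s) {B : ℕ → ℕ} (hB : IsBase s B) {q : ℕ} (hq : 6 * s ≤ q)
    (hcop : ∀ a, Nat.Coprime (2 * B a) q) (hgood : ∀ N, GoodQ s q N) :
    ∃ c : ℝ, 0 < c ∧ ∃ X₀ : ℕ, ∀ X : ℕ, X₀ ≤ X → (exc s X : ℝ) ≤ (X : ℝ) ^ (1 - c) := by
  have hs' : (5 : ℝ) ≤ s := by exact_mod_cast hs
  have hq' : (30 : ℝ) ≤ q := by
    have : 30 ≤ q := by omega
    exact_mod_cast this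
  have hlq : 1 < Real.log q := by
    rw [Real.lt_log_iff_exp_lt (by linarith)]
    have := Real.exp_one_lt_d9
    linarith
  obtain ⟨δ, hδ⟩ : ∃ δ : ℝ, δ = 1 / (12 * s) := ⟨_, rfl⟩
  have hδ0 : 0 < δ := by rw [hδ]; positivity
  have hδ1 : δ ≤ 1 / 60 := by
    rw [hδ, div_le_div_iff₀ (by positivity) (by norm_num)]
    linarith
  obtain ⟨c, hc⟩ : ∃ c : ℝ, c = δ / (8 * Real.log q) := ⟨_, rfl⟩
  have hc0 : 0 < c := by rw [hc]; positivity
  have hc1 : c ≤ 1 / 480 := by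
    rw [hc, div_le_iff₀ (by linarith)]
    nlinarith
  have he1 : 0 < Real.exp 1 := Real.exp_pos 1
  have hl2 : 0 < Real.log 2 := Real.log_pos (by norm_num)
  have hA1 := (isLittleO_log_rpow_atTop hc0).bound
    (show 0 < Real.log 2 / (24 * Real.exp 1) by positivity)
  have hA2 := (tendsto_rpow_atTop hc0).eventually_ge_atTop (24 * Real.exp 1)
  have hB1 := (tendsto_rpow_atTop (show 0 < 1 / 2 - c by linarith)).eventually_ge_atTop 14
  have hC1 := Real.tendsto_log_atTop.eventually_ge_atTop (8 * Real.log q)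
  have hC2 := Filter.eventually_ge_atTop (400 : ℝ)
  have hall := (tendsto_natCast_atTop_atTop (R := ℝ)).eventually
    (hA1.and (hA2.and (hB1.and (hC1.and hC2))))
  obtain ⟨X₀, hX₀⟩ := Filter.eventually_atTop.1 hall
  refine ⟨c, hc0, X₀, fun X hX => ?_⟩
  obtain ⟨h1, h2, h3, h4, h5⟩ := hX₀ X hX
  have hX0 : (0 : ℝ) < X := by linarith
  have hlX : 0 < Real.log X := by linarith
  rw [Real.norm_of_nonneg hlX.le, Real.norm_of_nonneg (Real.rpow_nonneg hX0.le _)] at h1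
  obtain ⟨m, hm⟩ : ∃ m : ℕ, m = ⌊Real.log X / (4 * Real.log q)⌋₊ := ⟨_, rfl⟩
  have hmle : (m : ℝ) ≤ Real.log X / (4 * Real.log q) := by
    rw [hm]
    exact Nat.floor_le (by positivity)
  have hmge : Real.log X / (4 * Real.log q) < m + 1 := by
    rw [hm]
    exact Nat.lt_floor_add_one _
  have hm2 : 2 ≤ m := by
    rw [hm]
    apply Nat.le_floor
    rw [le_div_iff₀ (by positivity)]
    push_cast
    linarith
  have hsq : Real.sqrt X ^ 2 = X := Real.sq_sqrt hX0.le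
  have hsqn : (Nat.sqrt X : ℝ) ≤ Real.sqrt X := Real.nat_sqrt_le_real_sqrt
  have hqm : ((q : ℝ) ^ m) ^ 2 ≤ Real.sqrt X := by
    have h6 : (q : ℝ) ^ m = Real.exp (m * Real.log q) := by
      rw [Real.exp_nat_mul, Real.exp_log (by linarith)]
    rw [h6, ← Real.exp_nat_mul]
    have h7 : Real.sqrt X = Real.exp (Real.log X / 2) := by
      rw [Real.exp_half, Real.exp_log hX0]
    rw [h7]
    apply Real.exp_le_exp.2
    rw [le_div_iff₀ (by positivity)] at hmle
    push_cast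
    nlinarith
  have hT : ∀ Y : ℕ, Nat.sqrt X + 1 ≤ Y → Real.sqrt X ≤ Y := by
    intro Y hY
    have h8 : X < (Nat.sqrt X + 1) ^ 2 := Nat.lt_succ_sqrt' X
    have h9 : X ≤ Y ^ 2 := h8.le.trans (Nat.pow_le_pow_left hY 2)
    rw [Real.sqrt_le_left (by positivity)]
    exact_mod_cast h9
  have hbig : (20 : ℝ) ≤ Real.sqrt X := by
    rw [Real.le_sqrt' (by norm_num)]
    linarith
  have hE : ∀ Y, Nat.sqrt X + 1 ≤ Y → Y ≤ X →
      (blk s Y : ℝ) ≤ 6 * X * (Real.exp 1 * (X : ℝ) ^ (-(2 * c))) := by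
    intro Y hY hYX
    have hY1 := hT Y hY
    have hY20 : 20 ≤ Y := by
      have : (20 : ℝ) ≤ Y := hbig.trans hY1
      exact_mod_cast this
    have h10 := blk_le_univ hs hB hq hcop hgood hY20 (n := m - 1) (by omega) (by
      rw [show m - 1 + 1 = m by omega]
      have h11 : ((q : ℝ) ^ m) ^ 2 ≤ 3 * Y := by linarith [(Nat.cast_nonneg Y : (0 : ℝ) ≤ Y)]
      exact_mod_cast h11)
    refine h10.trans ?_
    have hYX' : (Y : ℝ) ≤ X := by exact_mod_cast hYX
    rw [← hδ]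
    have h12 : (1 - δ) ^ (m - 1) ≤ Real.exp 1 * (X : ℝ) ^ (-(2 * c)) := by
      have h13 : (1 - δ) ^ (m - 1) ≤ Real.exp (-δ) ^ (m - 1) := by
        refine pow_le_pow_left₀ (by linarith) ?_ _
        have := Real.add_one_le_exp (-δ)
        linarith
      refine h13.trans ?_
      rw [← Real.exp_nat_mul, Real.rpow_def_of_pos hX0, ← Real.exp_add]
      apply Real.exp_le_exp.2
      have h14 : ((m - 1 : ℕ) : ℝ) = (m : ℝ) - 1 := by
        rw [Nat.cast_sub (by omega)]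
        push_cast
        ring
      rw [h14]
      have h15 : Real.log X * (-(2 * c)) = -(δ * (Real.log X / (4 * Real.log q))) := by
        rw [hc]
        field_simp
        ring
      rw [h15]
      nlinarith
    have h16 : 0 ≤ (1 - δ) ^ (m - 1) := pow_nonneg (by linarith) _
    have h17 : (0 : ℝ) ≤ Y := Nat.cast_nonneg Y
    have h18 : 6 * (Y : ℝ) ≤ 6 * X := by linarith
    exact mul_le_mul h18 h12 h16 (by linarith)
  have hfin := exc_le (s := s) (T := Nat.sqrt X + 1) (n := Nat.log 2 X + 1) (X := X)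
    (E := 6 * X * (Real.exp 1 * (X : ℝ) ^ (-(2 * c)))) (by positivity) (by
      have h20 : 1 ≤ Nat.sqrt X := by
        rw [Nat.le_sqrt']
        have : (1 : ℝ) ≤ X := by linarith
        have h21 : 1 ≤ X := by exact_mod_cast this
        simpa using h21
      omega) hE (Nat.lt_pow_succ_log_self (by norm_num) X)
  refine hfin.trans ?_
  have hlog : (Nat.log 2 X : ℝ) ≤ Real.log X / Real.log 2 := by
    have := Real.natLog_le_logb X 2
    rw [Real.logb] at this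
    exact_mod_cast this
  push_cast
  have hx1 : (X : ℝ) ^ (1 - c) = Real.sqrt X * (X : ℝ) ^ (1 / 2 - c) := by
    rw [Real.sqrt_eq_rpow, ← Real.rpow_add hX0]
    congr 1
    ring
  have hx2 : (X : ℝ) * (X : ℝ) ^ (-(2 * c)) * (X : ℝ) ^ c = (X : ℝ) ^ (1 - c) := by
    nth_rewrite 1 [← Real.rpow_one (X : ℝ)]
    rw [← Real.rpow_add hX0, ← Real.rpow_add hX0]
    congr 1
    ring
  have hp1 : 3 * ((Nat.sqrt X : ℝ) + 1) + 1 ≤ (X : ℝ) ^ (1 - c) / 2 := by
    rw [hx1]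
    nlinarith
  have hp2 : ((Nat.log 2 X : ℝ) + 1) * (6 * X * (Real.exp 1 * (X : ℝ) ^ (-(2 * c)))) ≤
      (X : ℝ) ^ (1 - c) / 2 := by
    rw [← hx2]
    have h22 : 12 * Real.exp 1 * (Real.log X / Real.log 2 + 1) ≤ (X : ℝ) ^ c := by
      have h23 : Real.log X / Real.log 2 ≤ 1 / (24 * Real.exp 1) * (X : ℝ) ^ c := by
        rw [div_le_iff₀ hl2]
        calc Real.log X ≤ Real.log 2 / (24 * Real.exp 1) * (X : ℝ) ^ c := h1
          _ = 1 / (24 * Real.exp 1) * (X : ℝ) ^ c * Real.log 2 := by ring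
      have h24 : 12 * Real.exp 1 * (1 / (24 * Real.exp 1) * (X : ℝ) ^ c) = (X : ℝ) ^ c / 2 := by
        field_simp
        ring
      have h25 : 12 * Real.exp 1 * (Real.log X / Real.log 2) ≤ (X : ℝ) ^ c / 2 := by
        rw [← h24]
        exact mul_le_mul_of_nonneg_left h23 (by positivity)
      linarith
    have h26 : 0 < (X : ℝ) * (X : ℝ) ^ (-(2 * c)) := by positivity
    have h27 : 12 * Real.exp 1 * ((Nat.log 2 X : ℝ) + 1) ≤ (X : ℝ) ^ c := by
      refine le_trans ?_ h22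
      exact mul_le_mul_of_nonneg_left (by linarith) (by positivity)
    calc ((Nat.log 2 X : ℝ) + 1) * (6 * X * (Real.exp 1 * (X : ℝ) ^ (-(2 * c))))
        = (X : ℝ) * (X : ℝ) ^ (-(2 * c)) * (12 * Real.exp 1 * ((Nat.log 2 X : ℝ) + 1)) / 2 := by
          ring
      _ ≤ (X : ℝ) * (X : ℝ) ^ (-(2 * c)) * (X : ℝ) ^ c / 2 := by
          have := mul_le_mul_of_nonneg_left h27 h26.le
          linarith
  linarith

end Pool.Agent.Lib.MP_f8c884_nt
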