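import Mathlib

/-!
# The main counting lemma

Fix `r`. Test number `i` (`1 ≤ i ≤ n`) is passed by `l` if some `k` with
`1 ≤ k ≤ h * (m i * q ^ (i - 1))` satisfies `k ≡ r (mod m i)`, `k ≡ l (mod q ^ i)`. At most
`(q - h) ^ n` residues `l` modulo `q ^ n` fail all the tests.

Proof. Induction on `n`. Let `F n ⊆ range (q ^ n)` be the set. If `l ∈ F (n + 1)` then
`l₀ = l % q ^ n ∈ F n` (test `i ≤ n` only depends on `l` modulo `q ^ i`, and `q ^ i ∣ q ^ n`), and
`l = l₀ + q ^ n * v`, `v = l / q ^ n ∈ range q`. For given `l₀` there are at least `h` digits `v`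
for which `l₀ + q ^ n * v` passes test `n + 1`: let `m = m (n + 1)`, let `k₀ ∈ [1, m q ^ n]` be the
solution of `k₀ ≡ r (mod m)`, `k₀ ≡ l₀ (mod q ^ n)` (`Nat.chineseRemainder`, `m` and `q` are
coprime; if the solution in `[0, m q ^ n)` is `0` take `m q ^ n`). For `v' < h` put
`k = k₀ + m q ^ n v' ≤ m q ^ n (v' + 1) ≤ h m q ^ n`, and `v = (k % q ^ (n + 1)) / q ^ n`; then
`k ≡ l₀ + q ^ n v (mod q ^ (n + 1))`. The map `v' ↦ v` is injective on `range h`: if two values agree
then `q ^ (n + 1) ∣ m q ^ n (v' - v'')`, so `q ∣ v' - v''` (`m` coprime to `q`), and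
`|v' - v''| < h ≤ q`. So `|F (n + 1)| ≤ |F n| (q - h)` (e.g. inject `F (n + 1)` into the sigma/biUnion
over `l₀ ∈ F n` of the failing digits, `Finset.card_le_mul_card_image` or
`Finset.card_biUnion_le_card_mul`).
-/

set_option autoImplicit false

open Finset

namespace Pool.Agent.Lib.MP_f8c884_nt

open Classical in
/-- the residues modulo `q ^ n` which fail the tests `1, ..., n` -/
noncomputable def failSet (q h : ℕ) (m : ℕ → ℕ) (r n : ℕ) : Finset ℕ :=
  (range (q ^ n)).filter (fun l => ∀ i, 1 ≤ i → i ≤ n → ∀ k, 1 ≤ k →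
    k ≤ h * (m i * q ^ (i - 1)) → ¬ (k ≡ r [MOD m i] ∧ k ≡ l [MOD q ^ i]))

private theorem count_k0 {m Q : ℕ} (hm : 1 ≤ m) (hQ : 1 ≤ Q) (hco : Nat.Coprime m Q) (r l : ℕ) :
    ∃ k, 1 ≤ k ∧ k ≤ m * Q ∧ k ≡ r [MOD m] ∧ k ≡ l [MOD Q] := by
  obtain ⟨k1, h1, h2⟩ := Nat.chineseRemainder hco r l
  have hM : 0 < m * Q := Nat.mul_pos hm hQ
  refine ⟨(k1 + (m * Q - 1)) % (m * Q) + 1, by omega, ?_, ?_, ?_⟩
  · have := Nat.mod_lt (k1 + (m * Q - 1)) hM
    omega
  · have h3 : (k1 + (m * Q - 1)) % (m * Q) + 1 ≡ k1 [MOD m * Q] := by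
      have h4 : (k1 + (m * Q - 1)) % (m * Q) + 1 ≡ (k1 + (m * Q - 1)) + 1 [MOD m * Q] :=
        (Nat.mod_modEq _ _).add_right 1
      have h5 : k1 + (m * Q - 1) + 1 = k1 + m * Q := by omega
      rw [h5] at h4
      exact h4.trans (by simp [Nat.ModEq])
    exact (h3.of_mul_right Q).trans h1
  · have h3 : (k1 + (m * Q - 1)) % (m * Q) + 1 ≡ k1 [MOD m * Q] := by
      have h4 : (k1 + (m * Q - 1)) % (m * Q) + 1 ≡ (k1 + (m * Q - 1)) + 1 [MOD m * Q] :=
        (Nat.mod_modEq _ _).add_right 1
      have h5 : k1 + (m * Q - 1) + 1 = k1 + m * Q := by omega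
      rw [h5] at h4
      exact h4.trans (by simp [Nat.ModEq])
    exact (h3.of_mul_left m).trans h2

theorem card_failSet {q h : ℕ} (hq : 1 ≤ q) (hh : h ≤ q) {m : ℕ → ℕ} (hm : ∀ i, 1 ≤ m i)
    (hcop : ∀ i, Nat.Coprime (m i) q) (r n : ℕ) :
    (failSet q h m r n).card ≤ (q - h) ^ n := by
  classical
  induction n with
  | zero =>
    have h1 : (failSet q h m r 0).card ≤ (range (q ^ 0)).card := card_le_card (filter_subset _ _)
    simpa using h1
  | succ n ih =>
    have hqn : 0 < q ^ n := Nat.pow_pos hq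
    have hqn1 : 0 < q ^ (n + 1) := Nat.pow_pos hq
    have hmaps : ∀ l ∈ failSet q h m r (n + 1), l % q ^ n ∈ failSet q h m r n := by
      intro l hl
      rw [failSet, mem_filter] at hl ⊢
      refine ⟨mem_range.2 (Nat.mod_lt _ hqn), ?_⟩
      intro i h1 h2 k h3 h4 h5
      refine hl.2 i h1 (by omega) k h3 h4 ⟨h5.1, ?_⟩
      have h6 : l % q ^ n ≡ l [MOD q ^ i] := (Nat.mod_modEq l (q ^ n)).of_dvd (pow_dvd_pow q h2)
      exact h5.2.trans h6
    have hfib : ∀ l0 ∈ failSet q h m r n,
        ((failSet q h m r (n + 1)).filter (fun l => l % q ^ n = l0)).card ≤ q - h := by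
      intro l0 hl0
      have hl0' : l0 < q ^ n := by
        rw [failSet, mem_filter] at hl0
        exact mem_range.1 hl0.1
      obtain ⟨k0, hk1, hk2, hk3, hk4⟩ := count_k0 (hm (n + 1)) hqn ((hcop (n + 1)).pow_right n) r l0
      set M := m (n + 1) * q ^ n with hM
      set P := (range h).image (fun v => (k0 + M * v) % q ^ (n + 1)) with hP
      have hPcard : P.card = h := by
        rw [hP, card_image_of_injOn, card_range]
        intro v hv v' hv' hvv
        have hv1 : v < h := by simpa using hv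
        have hv2 : v' < h := by simpa using hv'
        have h1 : k0 + M * v ≡ k0 + M * v' [MOD q ^ (n + 1)] := hvv
        have h2 : M * v ≡ M * v' [MOD q ^ (n + 1)] := Nat.ModEq.add_left_cancel' k0 h1
        have h3 : q ^ n * (m (n + 1) * v) ≡ q ^ n * (m (n + 1) * v') [MOD q ^ n * q] := by
          have e1 : q ^ n * (m (n + 1) * v) = M * v := by rw [hM]; ring
          have e2 : q ^ n * (m (n + 1) * v') = M * v' := by rw [hM]; ring
          rw [e1, e2, ← pow_succ]
          exact h2
        have h4 : m (n + 1) * v ≡ m (n + 1) * v' [MOD q] := Nat.ModEq.mul_left_cancel' hqn.ne' h3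
        have h5 : v ≡ v' [MOD q] :=
          Nat.ModEq.cancel_left_of_coprime (by rw [Nat.gcd_comm]; exact hcop (n + 1)) h4
        have h6 : v % q = v' % q := h5
        rwa [Nat.mod_eq_of_lt (by omega), Nat.mod_eq_of_lt (by omega)] at h6
      set S := (failSet q h m r (n + 1)).filter (fun l => l % q ^ n = l0) with hS
      have hPS : Disjoint S P := by
        rw [disjoint_left]
        intro l hlS hlP
        rw [hS, mem_filter, failSet, mem_filter] at hlS
        rw [hP, mem_image] at hlP
        obtain ⟨v, hv, rfl⟩ := hlP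
        have hv1 : v < h := mem_range.1 hv
        refine hlS.1.2 (n + 1) (by omega) le_rfl (k0 + M * v) (by omega) ?_ ⟨?_, ?_⟩
        · rw [Nat.add_sub_cancel, ← hM]
          calc k0 + M * v ≤ M + M * v := by omega
            _ = (v + 1) * M := by ring
            _ ≤ h * M := Nat.mul_le_mul_right _ hv1
        · have h1 : k0 + M * v ≡ k0 [MOD m (n + 1)] := by
            have : M * v = m (n + 1) * (q ^ n * v) := by rw [hM]; ring
            rw [this]
            simp [Nat.ModEq]
          exact h1.trans hk3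
        · exact (Nat.mod_modEq _ _).symm
      have hsub : S ∪ P ⊆ (range q).image (fun v => l0 + q ^ n * v) := by
        have key : ∀ l, l < q ^ (n + 1) → l % q ^ n = l0 → l ∈ (range q).image (fun v => l0 + q ^ n * v) := by
          intro l h1 h2
          rw [mem_image]
          refine ⟨l / q ^ n, ?_, ?_⟩
          · rw [mem_range]
            apply Nat.div_lt_of_lt_mul
            rwa [← pow_succ]
          · rw [← h2]
            exact Nat.mod_add_div l (q ^ n)
        intro l hl
        rw [mem_union] at hl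
        rcases hl with hl | hl
        · rw [hS, mem_filter, failSet, mem_filter] at hl
          exact key l (mem_range.1 hl.1.1) hl.2
        · rw [hP, mem_image] at hl
          obtain ⟨v, hv, rfl⟩ := hl
          refine key _ (Nat.mod_lt _ hqn1) ?_
          rw [Nat.mod_mod_of_dvd _ (pow_dvd_pow q (Nat.le_succ n))]
          have h1 : k0 + M * v ≡ k0 [MOD q ^ n] := by
            have : M * v = q ^ n * (m (n + 1) * v) := by rw [hM]; ring
            rw [this]
            simp [Nat.ModEq]
          have h2 : (k0 + M * v) % q ^ n = l0 % q ^ n := h1.trans hk4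
          rw [h2, Nat.mod_eq_of_lt hl0']
      have hc := card_le_card hsub
      rw [card_union_of_disjoint hPS, hPcard] at hc
      have hc2 : ((range q).image (fun v => l0 + q ^ n * v)).card ≤ q := by
        simpa using card_image_le (s := range q) (f := fun v => l0 + q ^ n * v)
      omega
    have h1 := card_le_mul_card_image_of_maps_to hmaps (q - h) hfib
    calc (failSet q h m r (n + 1)).card ≤ (q - h) * (failSet q h m r n).card := h1
      _ ≤ (q - h) * (q - h) ^ n := Nat.mul_le_mul_left _ ih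
      _ = (q - h) ^ (n + 1) := by ring

/-- pairwise congruent integers in an interval of length `L` -/
theorem card_of_modEq {A : Finset ℕ} {a L m : ℕ} (hm : 1 ≤ m)
    (hA : ∀ x ∈ A, a < x ∧ x ≤ a + L) (hc : ∀ x ∈ A, ∀ y ∈ A, x ≡ y [MOD m]) :
    A.card ≤ L / m + 1 := by
  have h1 : A.card = (A.image (fun x => (x - a - 1) / m)).card := by
    rw [card_image_of_injOn]
    intro x hx y hy hxy
    have hx1 := hA x hx
    have hy1 := hA y hy
    have h2 : (x - a - 1) / m = (y - a - 1) / m := hxy
    have h3 : x ≡ y [MOD m] := hc x hx y hy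
    have h4 : x - a - 1 ≡ y - a - 1 [MOD m] := by
      have e1 : x = (x - a - 1) + (a + 1) := by omega
      have e2 : y = (y - a - 1) + (a + 1) := by omega
      rw [e1, e2] at h3
      exact Nat.ModEq.add_right_cancel' (a + 1) h3
    have h5 : (x - a - 1) % m = (y - a - 1) % m := h4
    have h6 := Nat.div_add_mod (x - a - 1) m
    have h7 := Nat.div_add_mod (y - a - 1) m
    rw [h2, h5] at h6
    omega
  have h2 : A.image (fun x => (x - a - 1) / m) ⊆ range (L / m + 1) := by
    intro y hy
    rw [mem_image] at hy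
    obtain ⟨x, hx, rfl⟩ := hy
    have hx1 := hA x hx
    rw [mem_range]
    have h3 : (x - a - 1) / m ≤ L / m := Nat.div_le_div_right (by omega)
    omega
  rw [h1]
  exact (card_le_card h2).trans (by rw [card_range])

end Pool.Agent.Lib.MP_f8c884_nt
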