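import Pool.Agent.Lib.MP_f8c884_nt.Defs
import Pool.Agent.Lib.MP_f8c884_nt.Count

/-!
# Numbers without split primes

`card_bad`: in `ZMod p` (or with residues) the map `x ↦ ((s-2) x² - (s-4) x) / 2` on the `p - 1`
elements `x` with `2 (s-2) x ≠ s - 4` (`s - 2` is invertible, `p > s`) has fibres with at most two
elements (a quadratic equation), so at least `(p - 1) / 2` values; they are the classes of `N` with
`SplitAt s p N`. So at most `p - (p - 1) / 2 = (p + 1) / 2` residues are not split.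

`count_nosplit`: `SplitAt s p N` only depends on `N` modulo `p` (`split_congr`). The map
`x ↦ (x mod p)_{p ∈ P}` from the `x < Q = ∏ p` with no split `p ∈ P` to the product of the sets of the
bad residues is injective (pairwise coprime moduli, `Nat.modEq_iff_dvd`,
`Finset.prod_dvd_of_coprime` / `Nat.Coprime.prod...`), so there are at most `∏ (p + 1) / 2` bad classes
modulo `Q` (`Fintype.card_piFinset` or `Finset.card_pi`). By `card_of_modEq` (`L = 2 Y`) each class has
at most `2 Y / Q + 1 ≤ 3 Y / Q` elements in `(Y, 3 Y]`. Total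
`≤ 3 Y ∏ (p + 1) / (2 p) ≤ 3 Y (2/3) ^ |P|` since `(p + 1) / (2 p) ≤ 2/3` for `p ≥ 3`.
-/

set_option autoImplicit false

open Finset

namespace Pool.Agent.Lib.MP_f8c884_nt

theorem split_congr {s p N N' : ℕ} (h : N ≡ N' [MOD p]) (hN : SplitAt s p N) :
    SplitAt s p N' := by
  obtain ⟨x, hx, hx'⟩ := hN
  refine ⟨x, ?_, hx'⟩
  have h1 : (p : ℤ) ∣ (N' : ℤ) - N := Nat.modEq_iff_dvd.mp h
  have h2 : G s N' x = G s N x - 2 * ((N' : ℤ) - N) := by
    unfold G
    ring
  rw [h2]
  exact dvd_sub hx (Dvd.dvd.mul_left h1 2)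

open Classical in
theorem card_bad {s p : ℕ} (hs : 5 ≤ s) (hp : p.Prime) (hps : 6 * s ≤ p) :
    ((range p).filter (fun N => ¬ SplitAt s p N)).card ≤ (p + 1) / 2 := by
  have : Fact p.Prime := ⟨hp⟩
  have hp0 : 0 < p := hp.pos
  have h2 : (2 : ZMod p) ≠ 0 := by
    intro h
    have : ((2 : ℕ) : ZMod p) = 0 := by exact_mod_cast h
    rw [ZMod.natCast_eq_zero_iff] at this
    have := Nat.le_of_dvd (by norm_num) this
    omega
  have hs2 : ((s : ZMod p) - 2) ≠ 0 := by
    intro h
    have : ((s - 2 : ℕ) : ZMod p) = 0 := by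
      rw [Nat.cast_sub (by omega)]
      exact_mod_cast h
    rw [ZMod.natCast_eq_zero_iff] at this
    have := Nat.le_of_dvd (by omega) this
    omega
  set D : Finset (ZMod p) :=
    univ.filter (fun x => 2 * ((s : ZMod p) - 2) * x ≠ (s : ZMod p) - 4) with hD
  have hDc : p - 1 ≤ D.card := by
    have h3 : D = univ.erase (((s : ZMod p) - 4) / (2 * ((s : ZMod p) - 2))) := by
      ext x
      simp only [hD, mem_filter, mem_univ, true_and, mem_erase, and_true, ne_eq]
      rw [eq_div_iff (mul_ne_zero h2 hs2), mul_comm x]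
    rw [h3, card_erase_of_mem (mem_univ _), card_univ, ZMod.card]
  set φ : ZMod p → ZMod p := fun x =>
    (((s : ZMod p) - 2) * x ^ 2 - ((s : ZMod p) - 4) * x) / 2 with hφ
  have hfib : D.card ≤ 2 * (D.image φ).card := by
    refine Finset.card_le_mul_card_image D 2 ?_
    intro b hb
    obtain ⟨x0, hx0, rfl⟩ := mem_image.mp hb
    have hsub : D.filter (fun x => φ x = φ x0) ⊆
        {x0, ((s : ZMod p) - 4) / ((s : ZMod p) - 2) - x0} := by
      intro x hx
      rw [mem_filter] at hx
      have h4 := hx.2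
      rw [hφ] at h4
      simp only at h4
      rw [div_left_inj' h2] at h4
      have h5 : (x - x0) * (((s : ZMod p) - 2) * (x + x0) - ((s : ZMod p) - 4)) = 0 := by
        linear_combination h4
      rw [mem_insert, mem_singleton]
      rcases mul_eq_zero.mp h5 with h6 | h6
      · left
        exact sub_eq_zero.mp h6
      · right
        rw [eq_sub_iff_add_eq, eq_div_iff hs2]
        linear_combination h6
    exact (card_le_card hsub).trans card_le_two
  have hval : ((D.image φ).image ZMod.val) ⊆ (range p).filter (fun N => SplitAt s p N) := by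
    intro N hN
    obtain ⟨b, hb, rfl⟩ := mem_image.mp hN
    obtain ⟨x, hx, rfl⟩ := mem_image.mp hb
    rw [mem_filter, mem_range]
    refine ⟨ZMod.val_lt _, (x.val : ℤ), ?_, ?_⟩
    · rw [← ZMod.intCast_zmod_eq_zero_iff_dvd]
      unfold G
      push_cast
      rw [ZMod.natCast_zmod_val, ZMod.natCast_zmod_val, hφ]
      field_simp
      ring
    · rw [← ZMod.intCast_zmod_eq_zero_iff_dvd]
      push_cast
      rw [ZMod.natCast_zmod_val, sub_eq_zero]
      rw [hD, mem_filter] at hx
      exact hx.2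
  have hcard : (D.image φ).card ≤ ((range p).filter (fun N => SplitAt s p N)).card := by
    rw [← card_image_of_injective (D.image φ) (ZMod.val_injective p)]
    exact card_le_card hval
  have htot := Finset.card_filter_add_card_filter_not (s := range p) (fun N => SplitAt s p N)
  rw [card_range] at htot
  omega

open Classical in
theorem count_nosplit {s : ℕ} (hs : 5 ≤ s) (P : Finset ℕ)
    (hP : ∀ p ∈ P, p.Prime ∧ 6 * s ≤ p) {Y : ℕ} (hQ : ∏ p ∈ P, p ≤ Y) :
    (((Ioc Y (3 * Y)).filter (fun N => ∀ p ∈ P, ¬ SplitAt s p N)).card : ℝ) ≤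
      3 * Y * (2 / 3) ^ P.card := by
  set Q : ℕ := ∏ p ∈ P, p with hQd
  have hQ1 : 1 ≤ Q := Nat.one_le_iff_ne_zero.mpr
    (Finset.prod_ne_zero_iff.mpr fun p hp => (hP p hp).1.ne_zero)
  set A := (Ioc Y (3 * Y)).filter (fun N => ∀ p ∈ P, ¬ SplitAt s p N) with hA
  set bad : ℕ → Finset ℕ := fun p => (range p).filter (fun N => ¬ SplitAt s p N) with hbad
  let f : ℕ → (∀ p ∈ P, ℕ) := fun N p _ => N % p
  have hmaps : ∀ N ∈ A, f N ∈ P.pi bad := by
    intro N hN
    rw [Finset.mem_pi]
    intro p hp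
    rw [hbad]
    simp only [f]
    rw [mem_filter, mem_range]
    refine ⟨Nat.mod_lt _ (hP p hp).1.pos, fun hsp => ?_⟩
    rw [hA, mem_filter] at hN
    exact hN.2 p hp (split_congr (Nat.mod_modEq N p) hsp)
  have hfib : ∀ b ∈ P.pi bad, (A.filter (fun N => f N = b)).card ≤ 2 * Y / Q + 1 := by
    intro b _
    refine card_of_modEq (a := Y) hQ1 ?_ ?_
    · intro x hx
      rw [mem_filter, hA, mem_filter, mem_Ioc] at hx
      omega
    · intro x hx y hy
      rw [mem_filter] at hx hy
      rw [Nat.modEq_iff_dvd, hQd]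
      push_cast
      refine Finset.prod_dvd_of_coprime ?_ ?_
      · intro p hp q hq hpq
        exact Nat.isCoprime_iff_coprime.mpr
          ((Nat.coprime_primes (hP p hp).1 (hP q hq).1).mpr hpq)
      · intro p hp
        rw [← Nat.modEq_iff_dvd]
        have h1 : f x = f y := hx.2.trans hy.2.symm
        exact congrFun (congrFun h1 p) hp
  have hle := Finset.card_le_mul_card_image_of_maps_to hmaps _ hfib
  rw [Finset.card_pi] at hle
  have hprod : ((∏ p ∈ P, (bad p).card : ℕ) : ℝ) ≤ (2 / 3) ^ P.card * Q := by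
    rw [hQd]
    push_cast
    rw [← Finset.prod_const, ← Finset.prod_mul_distrib]
    refine Finset.prod_le_prod (fun _ _ => Nat.cast_nonneg _) ?_
    intro p hp
    obtain ⟨h1, h2⟩ := hP p hp
    have h3 := card_bad hs h1 h2
    have h4 : 3 * (bad p).card ≤ 2 * p := by
      have : (bad p).card ≤ (p + 1) / 2 := h3
      omega
    have h5 : (3 : ℝ) * (bad p).card ≤ 2 * p := by exact_mod_cast h4
    linarith
  have hQ0 : (0 : ℝ) < Q := by exact_mod_cast hQ1
  have hYQ : ((2 * Y / Q + 1 : ℕ) : ℝ) ≤ 3 * Y / Q := by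
    push_cast
    have h1 : ((2 * Y / Q : ℕ) : ℝ) ≤ ((2 * Y : ℕ) : ℝ) / Q := Nat.cast_div_le
    have h2 : (1 : ℝ) ≤ Y / Q := by
      rw [le_div_iff₀ hQ0, one_mul]
      exact_mod_cast hQ
    push_cast at h1
    calc ((2 * Y / Q : ℕ) : ℝ) + 1 ≤ 2 * Y / Q + Y / Q := add_le_add h1 h2
      _ = 3 * Y / Q := by ring
  calc (A.card : ℝ) ≤ ((2 * Y / Q + 1) * ∏ p ∈ P, (bad p).card : ℕ) := by exact_mod_cast hle
    _ = ((2 * Y / Q + 1 : ℕ) : ℝ) * ((∏ p ∈ P, (bad p).card : ℕ) : ℝ) := by push_cast; ring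
    _ ≤ (3 * Y / Q) * ((2 / 3) ^ P.card * Q) := by
        refine mul_le_mul hYQ hprod (Nat.cast_nonneg _) (by positivity)
    _ = 3 * Y * (2 / 3) ^ P.card := by
        field_simp

end Pool.Agent.Lib.MP_f8c884_nt
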