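import Pool.Agent.Lib.MP_f8c884_nt.Prac
import Pool.Agent.Lib.MP_f8c884_nt.Count

/-!
# Non-representable numbers in a block

Let `a i` be the least `a` with `R ≤ B a * q ^ i` (`1 ≤ i ≤ n`), `M i = B (a i) * q ^ i`.
* `a i ≥ 1`, since `B 0 * q ^ i ≤ 2 q ^ n ≤ 2 R / q < R`; so by minimality and `succ_le`,
  `M i < 3 R`. `a i ≤ a 1 =: A` (if `R ≤ B a * q` then `R ≤ B a * q ^ i`), so `B (a i) ∣ B A`.
* `B (a i) * q ^ i ≥ R ≥ q ^ (n + 1) ≥ q ^ (i + 1)` gives `q ≤ B (a i)`, so `M i` is practical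
  (`practical_mul_pow`).
* Put `m i = 2 * B (a i)`, `h = q / (6 * s)`. Let `N` be in the set; take `r` with
  `2 * B A ∣ G s N r` and reduce it modulo `2 * B A`; take `l` with `q ^ n ∣ G s N l`, reduced modulo
  `q ^ n` (`G` is a polynomial: `x ≡ y (mod m)` gives `G s N x ≡ G s N y (mod m)`).
  Then `l ∈ failSet q h m r n`: if `1 ≤ k ≤ h * (m i * q ^ (i - 1))`, `k ≡ r (mod m i)`,
  `k ≡ l (mod q ^ i)`, then `2 * M i = m i * q ^ i ∣ G s N k` (coprime), `k ≤ 2 * M i / (6 s) < R / s`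
  (`h * q ^ (i-1) * (6 s) ≤ q ^ i`), so `polygonal s k ≤ (s / 2) k ^ 2 ≤ R ^ 2 / (2 s) ≤ 4 Y / 10 < N`,
  and `N ≤ 3 Y ≤ R ^ 2 ≤ (M i) ^ 2`: `rep_of_root`, contradiction.
* The number of pairs `(r, l)` is at most `2 * B A * (q - h) ^ n` (`card_failSet`), and for a given pair
  the `N`'s are congruent modulo `B A` and modulo `q ^ n` (`G s N r - G s N' r = 2 (N' - N)`, and `q` is
  odd since `2 * B a` is coprime to `q`), so modulo `B A * q ^ n`: at most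
  `2 * Y / (B A * q ^ n) + 1` of them (`card_of_modEq`).
* In total `≤ 2 B_A (q - h)^n (2 Y / (B_A q^n) + 1) = 2 (1 - h/q)^n (2 Y + B_A q^n)`, and
  `B_A q^n = M 1 * q^(n-1) ≤ 3 R q^(n-1) ≤ 3 R * R / q^2 ≤ 12 Y / 900 ≤ Y`, `h / q ≥ 1 / (12 s)`
  (`q ≥ 6 s`, `⌊x⌋ ≥ x / 2` for `x ≥ 1`).
-/

set_option autoImplicit false

open Finset

namespace Pool.Agent.Lib.MP_f8c884_nt

private theorem block_congr (s : ℕ) (N : ℤ) {m : ℤ} {x y : ℤ} (hxy : m ∣ x - y) (hx : m ∣ G s N x) :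
    m ∣ G s N y := by
  have h1 : G s N y = G s N x - (x - y) * (((s : ℤ) - 2) * (x + y) - ((s : ℤ) - 4)) := by
    unfold G; ring
  rw [h1]
  exact dvd_sub hx (hxy.mul_right _)

private theorem block_dvd {s : ℕ} {B : ℕ → ℕ} (hB : IsBase s B) {a b : ℕ} (hab : a ≤ b) :
    B a ∣ B b := by
  induction hab with
  | refl => exact dvd_rfl
  | step _ ih => exact ih.trans (hB.dvd_succ _)

private theorem block_B_pos {s : ℕ} {B : ℕ → ℕ} (hB : IsBase s B) (a : ℕ) : 0 < B a :=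
  lt_of_lt_of_le (Nat.pow_pos (by norm_num)) (hB.two_pow_le a)

/-- least index -/
private theorem block_index {s : ℕ} (hs : 5 ≤ s) {B : ℕ → ℕ} (hB : IsBase s B) {q : ℕ} (hq : 6 * s ≤ q)
    {R n i : ℕ} (hqn : q ^ (n + 1) ≤ R) (hi : i ≤ n) :
    ∃ a, R ≤ B a * q ^ i ∧ B a * q ^ i < 3 * R ∧ (∀ b, R ≤ B b * q ^ i → a ≤ b) := by
  classical
  have hq0 : 0 < q := by omega
  have hex : ∃ a, R ≤ B a * q ^ i := by
    refine ⟨R, ?_⟩
    have h1 : R ≤ 2 ^ R := Nat.lt_two_pow_self.le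
    calc R ≤ 2 ^ R := h1
      _ ≤ B R := hB.two_pow_le R
      _ ≤ B R * q ^ i := Nat.le_mul_of_pos_right _ (Nat.pow_pos hq0)
  refine ⟨Nat.find hex, Nat.find_spec hex, ?_, fun b hb => Nat.find_min' hex hb⟩
  have h0 : Nat.find hex ≠ 0 := by
    intro h0
    have h1 := Nat.find_spec hex
    rw [h0] at h1
    have h2 := hB.zero_le
    have h3 : q ^ i ≤ q ^ n := Nat.pow_le_pow_right hq0 hi
    have h4 : B 0 * q ^ i ≤ 2 * q ^ n := Nat.mul_le_mul h2 h3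
    have h5 : q ^ (n + 1) = q * q ^ n := by ring
    have h6 : 30 * q ^ n ≤ q * q ^ n := Nat.mul_le_mul_right _ (by omega)
    have h7 : 0 < q ^ n := Nat.pow_pos hq0
    omega
  obtain ⟨b, hb⟩ := Nat.exists_eq_succ_of_ne_zero h0
  have h1 : ¬ R ≤ B b * q ^ i := Nat.find_min hex (by omega)
  rw [hb]
  have h2 := hB.succ_le b
  calc B (b + 1) * q ^ i ≤ (3 * B b) * q ^ i := Nat.mul_le_mul_right _ h2
    _ = 3 * (B b * q ^ i) := by ring
    _ < 3 * R := by omega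

/-- an element passing a test gives a representation -/
private theorem block_test {s : ℕ} (hs : 5 ≤ s) {B : ℕ → ℕ} (hB : IsBase s B) {q : ℕ}
    (hq : 6 * s ≤ q) (hcop : ∀ a, Nat.Coprime (2 * B a) q) {Y R n : ℕ}
    (hR1 : 3 * Y ≤ R ^ 2) (hR2 : R ^ 2 ≤ 4 * Y) (hqn : q ^ (n + 1) ≤ R)
    {N : ℕ} (hN1 : Y < N) (hN2 : N ≤ 3 * Y) {a A i r l k : ℕ} (hi : 1 ≤ i) (hin : i ≤ n)
    (ha1 : R ≤ B a * q ^ i) (ha2 : B a * q ^ i < 3 * R) (haA : a ≤ A)
    (hr : ((2 * B A : ℕ) : ℤ) ∣ G s N r) (hl : ((q ^ n : ℕ) : ℤ) ∣ G s N l) (hk1 : 1 ≤ k)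
    (hk2 : k ≤ (q / (6 * s)) * ((2 * B a) * q ^ (i - 1))) (hkr : k ≡ r [MOD 2 * B a])
    (hkl : k ≡ l [MOD q ^ i]) : Representable s N := by
  have hq0 : 0 < q := by omega
  have hBa := block_B_pos hB a
  have hprac : Practical (B a * q ^ i) := by
    refine practical_mul_pow (hB.practical a) hq0 ?_ i
    by_contra hcon
    push Not at hcon
    have h1 : B a * q ^ i < q * q ^ i := Nat.mul_lt_mul_of_pos_right hcon (Nat.pow_pos hq0)
    have h2 : q * q ^ i ≤ q ^ (n + 1) := by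
      rw [← pow_succ']
      exact Nat.pow_le_pow_right hq0 (by omega)
    omega
  refine rep_of_root hs hprac hk1 ?_ ?_ ?_
  · have h1 : ((2 * B a : ℕ) : ℤ) ∣ G s N k := by
      have h2 : ((2 * B a : ℕ) : ℤ) ∣ G s N r :=
        (Int.natCast_dvd_natCast.2 (Nat.mul_dvd_mul_left 2 (block_dvd hB haA))).trans hr
      exact block_congr s N (Nat.modEq_iff_dvd.1 hkr) h2
    have h3 : ((q ^ i : ℕ) : ℤ) ∣ G s N k := by
      have h4 : ((q ^ i : ℕ) : ℤ) ∣ G s N l :=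
        (Int.natCast_dvd_natCast.2 (pow_dvd_pow q hin)).trans hl
      exact block_congr s N (Nat.modEq_iff_dvd.1 hkl) h4
    have h5 : IsCoprime ((2 * B a : ℕ) : ℤ) ((q ^ i : ℕ) : ℤ) :=
      Nat.isCoprime_iff_coprime.2 ((hcop a).pow_right i)
    have h6 := h5.mul_dvd h1 h3
    have e : ((2 * (B a * q ^ i) : ℕ) : ℤ) = ((2 * B a : ℕ) : ℤ) * ((q ^ i : ℕ) : ℤ) := by
      push_cast; ring
    rw [e]
    exact h6
  · -- size of k
    have h1 : (6 * s) * (q / (6 * s)) ≤ q := Nat.mul_div_le q (6 * s)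
    have h2 : q * q ^ (i - 1) = q ^ i := by
      rw [← pow_succ']
      congr 1
      omega
    have h3 : (6 * s) * k ≤ 2 * (B a * q ^ i) := by
      calc (6 * s) * k ≤ (6 * s) * ((q / (6 * s)) * ((2 * B a) * q ^ (i - 1))) :=
            Nat.mul_le_mul_left _ hk2
        _ = ((6 * s) * (q / (6 * s))) * ((2 * B a) * q ^ (i - 1)) := by ring
        _ ≤ q * ((2 * B a) * q ^ (i - 1)) := Nat.mul_le_mul_right _ h1
        _ = 2 * (B a * (q * q ^ (i - 1))) := by ring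
        _ = 2 * (B a * q ^ i) := by rw [h2]
    have h4 : s * k < R := by
      have : 6 * (s * k) < 6 * R := by
        calc 6 * (s * k) = (6 * s) * k := by ring
          _ ≤ 2 * (B a * q ^ i) := h3
          _ < 6 * R := by omega
      omega
    have h5 : (s * k) ^ 2 < R ^ 2 := Nat.pow_lt_pow_left h4 (by norm_num)
    have h6 : 5 * (s * k ^ 2) ≤ (s * k) ^ 2 := by
      calc 5 * (s * k ^ 2) ≤ s * (s * k ^ 2) := Nat.mul_le_mul_right _ hs
        _ = (s * k) ^ 2 := by ring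
    have h7 : 2 * polygonal s k ≤ s * k ^ 2 := by
      unfold polygonal
      calc 2 * (((s - 2) * k ^ 2 - (s - 4) * k) / 2) ≤ (s - 2) * k ^ 2 - (s - 4) * k :=
            Nat.mul_div_le _ _
        _ ≤ (s - 2) * k ^ 2 := Nat.sub_le _ _
        _ ≤ s * k ^ 2 := Nat.mul_le_mul_right _ (Nat.sub_le _ _)
    omega
  · calc N ≤ 3 * Y := hN2
      _ ≤ R ^ 2 := hR1
      _ ≤ (B a * q ^ i) ^ 2 := Nat.pow_le_pow_left ha1 2

open Classical in
theorem block_count {s : ℕ} (hs : 5 ≤ s) {B : ℕ → ℕ} (hB : IsBase s B) {q : ℕ} (hq : 6 * s ≤ q)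
    (hcop : ∀ a, Nat.Coprime (2 * B a) q) {Y R n : ℕ} (hY : 1 ≤ Y) (hR1 : 3 * Y ≤ R ^ 2)
    (hR2 : R ^ 2 ≤ 4 * Y) (hn : 1 ≤ n) (hqn : q ^ (n + 1) ≤ R) :
    (((Ioc Y (3 * Y)).filter (fun N => GoodQ s q N ∧ ¬ Representable s N)).card : ℝ) ≤
      6 * Y * (1 - 1 / (12 * s)) ^ n := by
  have hq0 : 0 < q := by omega
  set S := (Ioc Y (3 * Y)).filter (fun N => GoodQ s q N ∧ ¬ Representable s N) with hS
  have hidx : ∀ i, i ≤ n → ∃ a, R ≤ B a * q ^ i ∧ B a * q ^ i < 3 * R ∧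
      (∀ b, R ≤ B b * q ^ i → a ≤ b) := fun i hi => block_index hs hB hq hqn hi
  choose! a ha1 ha2 ha3 using hidx
  set A := a 1 with hA
  have hBA := block_B_pos hB A
  have haA : ∀ i, 1 ≤ i → i ≤ n → a i ≤ A := by
    intro i h1 h2
    apply ha3 i h2
    calc R ≤ B (a 1) * q ^ 1 := ha1 1 hn
      _ ≤ B (a 1) * q ^ i := Nat.mul_le_mul_left _ (Nat.pow_le_pow_right hq0 h1)
  -- the choice of the residues
  have hr : ∀ N : ℕ, ∃ r, r < 2 * B A ∧ ((2 * B A : ℕ) : ℤ) ∣ G s N r := by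
    intro N
    obtain ⟨r, hr⟩ := hB.root A N
    refine ⟨r % (2 * B A), Nat.mod_lt _ (by omega), ?_⟩
    exact block_congr s N (Nat.modEq_iff_dvd.1 (Nat.mod_modEq r (2 * B A))) hr
  have hl : ∀ N : ℕ, GoodQ s q N → ∃ l, l < q ^ n ∧ ((q ^ n : ℕ) : ℤ) ∣ G s N l := by
    intro N hN
    obtain ⟨l, hl⟩ := hN n
    refine ⟨l % (q ^ n), Nat.mod_lt _ (Nat.pow_pos hq0), ?_⟩
    exact block_congr s N (Nat.modEq_iff_dvd.1 (Nat.mod_modEq l (q ^ n))) hl
  choose r hr1 hr2 using hr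
  choose! l hl1 hl2 using hl
  set h := q / (6 * s) with hh
  set m : ℕ → ℕ := fun i => 2 * B (a i) with hm
  have hhq : h ≤ q := Nat.div_le_self _ _
  have hm1 : ∀ i, 1 ≤ m i := fun i => by
    have := block_B_pos hB (a i)
    simp only [hm]
    omega
  set T : Finset (Σ _ : ℕ, ℕ) := (range (2 * B A)).sigma (fun r => failSet q h m r n) with hT
  have hmaps : ∀ N ∈ S, (⟨r N, l N⟩ : Σ _ : ℕ, ℕ) ∈ T := by
    intro N hN
    rw [hS, mem_filter, mem_Ioc] at hN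
    obtain ⟨⟨hN1, hN2⟩, hN3, hN4⟩ := hN
    rw [hT, mem_sigma]
    refine ⟨mem_range.2 (hr1 N), ?_⟩
    rw [failSet, mem_filter]
    refine ⟨mem_range.2 (hl1 N hN3), ?_⟩
    intro i h1 h2 k h3 h4 h5
    exact hN4 (block_test hs hB hq hcop hR1 hR2 hqn hN1 hN2 h1 h2 (ha1 i h2) (ha2 i h2)
      (haA i h1 h2) (hr2 N) (hl2 N hN3) h3 h4 h5.1 h5.2)
  have hfib : ∀ t ∈ T, (S.filter (fun N => (⟨r N, l N⟩ : Σ _ : ℕ, ℕ) = t)).card ≤
      (2 * Y) / (B A * q ^ n) + 1 := by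
    intro t ht
    refine card_of_modEq (a := Y) (Nat.mul_pos hBA (Nat.pow_pos hq0)) ?_ ?_
    · intro N hN
      rw [mem_filter, hS, mem_filter, mem_Ioc] at hN
      exact ⟨hN.1.1.1, by omega⟩
    · intro N hN N' hN'
      rw [mem_filter, hS, mem_filter, mem_Ioc] at hN hN'
      have hrl : (⟨r N, l N⟩ : Σ _ : ℕ, ℕ) = ⟨r N', l N'⟩ := hN.2.trans hN'.2.symm
      have e1 : r N = r N' := by
        have := congrArg Sigma.fst hrl
        exact this
      have e2 : l N = l N' := by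
        have := congrArg (fun z : Σ _ : ℕ, ℕ => z.2) hrl
        exact this
      have h1 : ((2 * B A : ℕ) : ℤ) ∣ 2 * ((N' : ℤ) - N) := by
        have h2 := hr2 N
        have h3 := hr2 N'
        rw [← e1] at h3
        have h4 := dvd_sub h2 h3
        have e : G s N (r N) - G s N' (r N) = 2 * ((N' : ℤ) - N) := by unfold G; ring
        rwa [e] at h4
      have h5 : ((q ^ n : ℕ) : ℤ) ∣ 2 * ((N' : ℤ) - N) := by
        have h2 := hl2 N hN.1.2.1
        have h3 := hl2 N' hN'.1.2.1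
        rw [← e2] at h3
        have h4 := dvd_sub h2 h3
        have e : G s N (l N) - G s N' (l N) = 2 * ((N' : ℤ) - N) := by unfold G; ring
        rwa [e] at h4
      have h6 : ((B A : ℕ) : ℤ) ∣ (N' : ℤ) - N := by
        have e : ((2 * B A : ℕ) : ℤ) = 2 * ((B A : ℕ) : ℤ) := by push_cast; ring
        rw [e] at h1
        exact (mul_dvd_mul_iff_left (by norm_num)).1 h1
      have h7 : IsCoprime ((q ^ n : ℕ) : ℤ) (2 : ℤ) := by
        have h8 : Nat.Coprime 2 q := Nat.Coprime.coprime_mul_right (hcop 0)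
        have h9 : Nat.Coprime (q ^ n) 2 := (h8.pow_right n).symm
        have := Nat.isCoprime_iff_coprime.2 h9
        exact_mod_cast this
      have h8 : ((q ^ n : ℕ) : ℤ) ∣ (N' : ℤ) - N := h7.dvd_of_dvd_mul_left h5
      have h9 : IsCoprime ((B A : ℕ) : ℤ) ((q ^ n : ℕ) : ℤ) :=
        Nat.isCoprime_iff_coprime.2 ((Nat.Coprime.coprime_mul_left (hcop A)).pow_right n)
      have h10 := h9.mul_dvd h6 h8
      rw [Nat.modEq_iff_dvd]
      have e : ((B A * q ^ n : ℕ) : ℤ) = ((B A : ℕ) : ℤ) * ((q ^ n : ℕ) : ℤ) := by push_cast; ring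
      rw [e]
      exact h10
  have hcard := card_le_mul_card_image_of_maps_to hmaps _ hfib
  have hTcard : T.card ≤ 2 * B A * (q - h) ^ n := by
    rw [hT, card_sigma]
    calc ∑ r ∈ range (2 * B A), (failSet q h m r n).card
        ≤ ∑ _r ∈ range (2 * B A), (q - h) ^ n :=
          sum_le_sum fun r _ => card_failSet hq0 hhq hm1 (fun i => hcop (a i)) r n
      _ = 2 * B A * (q - h) ^ n := by rw [sum_const, card_range, smul_eq_mul]
  -- final estimate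
  have hBq : B A * q ^ n ≤ Y := by
    have h1 : B A * q ^ 1 < 3 * R := ha2 1 hn
    obtain ⟨n', rfl⟩ : ∃ n', n = n' + 1 := ⟨n - 1, by omega⟩
    have h2 : (B A * q ^ (n' + 1)) * q ^ 2 ≤ 12 * Y := by
      calc (B A * q ^ (n' + 1)) * q ^ 2 = (B A * q ^ 1) * q ^ (n' + 1 + 1) := by ring
        _ ≤ (3 * R) * R := Nat.mul_le_mul h1.le hqn
        _ = 3 * R ^ 2 := by ring
        _ ≤ 12 * Y := by omega
    have h3 : 900 ≤ q ^ 2 := by nlinarith
    have h4 : (B A * q ^ (n' + 1)) * 900 ≤ (B A * q ^ (n' + 1)) * q ^ 2 := Nat.mul_le_mul_left _ h3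
    omega
  have hhs : q ≤ h * (12 * s) := by
    have h1 : q < (6 * s) * (h + 1) := by
      rw [hh]
      exact Nat.lt_mul_div_succ q (by omega)
    have h2 : 1 ≤ h := by
      rw [hh]
      exact (Nat.one_le_div_iff (by omega)).2 hq
    nlinarith
  have hqR : (0 : ℝ) < q := by exact_mod_cast hq0
  have hsR : (0 : ℝ) < s := by exact_mod_cast (by omega : 0 < s)
  have hBAR : (0 : ℝ) < (B A : ℝ) := by exact_mod_cast hBA
  have h1 : (S.card : ℝ) ≤ ((2 * Y : ℝ) / (B A * q ^ n) + 1) * (2 * B A * (q - h) ^ n) := by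
    have h2 : S.card ≤ ((2 * Y) / (B A * q ^ n) + 1) * (2 * B A * (q - h) ^ n) :=
      hcard.trans (Nat.mul_le_mul_left _ hTcard)
    have h3 : (S.card : ℝ) ≤ ((((2 * Y) / (B A * q ^ n) + 1) * (2 * B A * (q - h) ^ n) : ℕ) : ℝ) := by
      exact_mod_cast h2
    refine h3.trans ?_
    rw [Nat.cast_mul, Nat.cast_add, Nat.cast_one, Nat.cast_mul, Nat.cast_pow, Nat.cast_sub hhq,
      Nat.cast_mul]
    have h4 : (((2 * Y) / (B A * q ^ n) : ℕ) : ℝ) ≤ (2 * Y : ℝ) / (B A * q ^ n) := by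
      have := @Nat.cast_div_le ℝ _ _ _ (2 * Y) (B A * q ^ n)
      push_cast at this
      exact this
    have h5 : (0 : ℝ) ≤ (q : ℝ) - h := by
      have : (h : ℝ) ≤ q := by exact_mod_cast hhq
      linarith
    push_cast
    gcongr
  have h2 : ((2 * Y : ℝ) / (B A * q ^ n) + 1) * (2 * B A * (q - h) ^ n) =
      2 * (2 * Y + B A * q ^ n) * (1 - h / q) ^ n := by
    have e : (1 - (h : ℝ) / q) ^ n = (q - h) ^ n / q ^ n := by
      rw [← div_pow]
      congr 1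
      field_simp
    rw [e]
    field_simp
  rw [h2] at h1
  refine h1.trans ?_
  have h3 : (B A : ℝ) * q ^ n ≤ Y := by exact_mod_cast hBq
  have h4 : (0 : ℝ) ≤ 1 - h / q := by
    have : (h : ℝ) / q ≤ 1 := by
      rw [div_le_one hqR]
      exact_mod_cast hhq
    linarith
  have h5 : 1 - (h : ℝ) / q ≤ 1 - 1 / (12 * s) := by
    have : 1 / (12 * (s : ℝ)) ≤ h / q := by
      rw [div_le_div_iff₀ (by positivity) hqR]
      have : (q : ℝ) ≤ h * (12 * s) := by exact_mod_cast hhs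
      linarith
    linarith
  have h6 : (1 - (h : ℝ) / q) ^ n ≤ (1 - 1 / (12 * s)) ^ n := pow_le_pow_left₀ h4 h5 n
  have h7 : (0 : ℝ) ≤ (1 - (h : ℝ) / q) ^ n := pow_nonneg h4 n
  calc 2 * (2 * (Y : ℝ) + B A * q ^ n) * (1 - h / q) ^ n
      ≤ 2 * (2 * Y + Y) * (1 - h / q) ^ n := by gcongr
    _ ≤ 2 * (2 * Y + Y) * (1 - 1 / (12 * s)) ^ n := by gcongr
    _ = 6 * Y * (1 - 1 / (12 * s)) ^ n := by ring

end Pool.Agent.Lib.MP_f8c884_nt
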