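import Pool.Agent.Lib.MP_f8c884_nt.Prac

/-!
# Solvability of the quadratic congruences

`hensel_quad`: induction on `J`: if `p ^ J ∣ P(x)` (`J ≥ 1`, `x ≡ x₀ (mod p)`), then
`P(x + p ^ J t) ≡ P(x) + p ^ J t (2 α x + β) (mod p ^ (J + 1))` and `2 α x + β ≡ 2 α x₀ + β` is
invertible modulo `p`; choose `t`. At the end replace `x` by a natural number in the same class
modulo `p ^ J` (`Int.emod`).

`isBase_two`: if `s ≡ 2 (mod 4)`, `G s N x = 2 P(x)` with
`P(x) = ((s-2)/2) x² - ((s-4)/2) x - N`, `(s-2)/2` even and `(s-4)/2` odd, root `x₀ ≡ N (mod 2)`. If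
`s` is odd, `G s N (2 y) = 2 P(y)` with `P(y) = 2 (s-2) y² - (s-4) y - N`, `s - 4` odd, root
`y₀ ≡ N (mod 2)`. `hensel_quad` with `p = 2`.

`isBase_three`: `s % 12 = 8`: `G s N x = 2 P(x)`, `P(x) = α x² - β x - N`, `α = (s-2)/2 ≡ 3 (mod 6)`,
`β = (s-4)/2 ≡ 2 (mod 6)`. Modulo `3`: `P(x) ≡ -β x - N`, `β` invertible, so there is a root, and
`hensel_quad` gives a root modulo `3 ^ a`. Modulo `2`: `P(x) ≡ x + N`. Chinese remainder theorem:
`2 * 3 ^ a ∣ P(r)`, so `2 * (2 * 3 ^ a) ∣ G s N r`. Practical: `2 * 3 ^ a` is `2` or `6 * 3 ^ (a - 1)`.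

`good_of_dvd`: `p ∣ s - 2`, `p` odd: `G s N x ≡ -(s - 4) x - 2 N (mod p)` with `s - 4` invertible.

`good_of_split`: `hensel_quad` for `G`.
-/

set_option autoImplicit false

open Finset

namespace Pool.Agent.Lib.MP_f8c884_nt

theorem hensel_quad {p : ℕ} (hp : p.Prime) (α β γ x₀ : ℤ)
    (h0 : (p : ℤ) ∣ α * x₀ ^ 2 + β * x₀ + γ) (h1 : ¬ (p : ℤ) ∣ 2 * α * x₀ + β) (J : ℕ) :
    ∃ x : ℕ, ((p ^ J : ℕ) : ℤ) ∣ α * (x : ℤ) ^ 2 + β * x + γ := by
  have hpZ : Prime (p : ℤ) := Nat.prime_iff_prime_int.mp hp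
  have key : ∀ J : ℕ, ∃ x : ℤ, (p : ℤ) ^ (J + 1) ∣ α * x ^ 2 + β * x + γ ∧
      (p : ℤ) ∣ x - x₀ := by
    intro J
    induction J with
    | zero => exact ⟨x₀, by simpa using h0, by simp⟩
    | succ J ih =>
      obtain ⟨x, ⟨u, hu⟩, hx⟩ := ih
      have hd : ¬ (p : ℤ) ∣ 2 * α * x + β := by
        intro h
        apply h1
        have h2 : 2 * α * x₀ + β = (2 * α * x + β) - 2 * α * (x - x₀) := by ring
        rw [h2]
        exact dvd_sub h (hx.mul_left _)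
      have hcop : IsCoprime (2 * α * x + β) (p : ℤ) :=
        ((Prime.coprime_iff_not_dvd hpZ).mpr hd).symm
      obtain ⟨a, b, hab⟩ := hcop
      -- `a * (2 α x + β) + b * p = 1`
      refine ⟨x + (p : ℤ) ^ (J + 1) * (-(u * a)), ?_, ?_⟩
      · have e : α * (x + (p : ℤ) ^ (J + 1) * (-(u * a))) ^ 2 +
            β * (x + (p : ℤ) ^ (J + 1) * (-(u * a))) + γ =
            (p : ℤ) ^ (J + 1 + 1) * (u * b + α * (p : ℤ) ^ J * (u * a) ^ 2) := by
          have e1 : α * (x + (p : ℤ) ^ (J + 1) * (-(u * a))) ^ 2 +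
            β * (x + (p : ℤ) ^ (J + 1) * (-(u * a))) + γ =
            (α * x ^ 2 + β * x + γ) + (p : ℤ) ^ (J + 1) * (-(u * (a * (2 * α * x + β)))) +
              α * ((p : ℤ) ^ (J + 1)) ^ 2 * (u * a) ^ 2 := by ring
          have e2 : a * (2 * α * x + β) = 1 - b * p := by linarith
          rw [e1, hu, e2]
          ring
        rw [e]
        exact Dvd.intro _ rfl
      · have e : x + (p : ℤ) ^ (J + 1) * (-(u * a)) - x₀ =
            (x - x₀) + (p : ℤ) * ((p : ℤ) ^ J * (-(u * a))) := by ring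
        rw [e]
        exact dvd_add hx (Dvd.intro _ rfl)
  obtain ⟨x, hx, _⟩ := key J
  have hx' : (p : ℤ) ^ J ∣ α * x ^ 2 + β * x + γ := (pow_dvd_pow _ (Nat.le_succ J)).trans hx
  have hpos : (0 : ℤ) < (p : ℤ) ^ J := by
    have := hp.pos
    positivity
  refine ⟨(x % (p : ℤ) ^ J).toNat, ?_⟩
  rw [Int.toNat_of_nonneg (Int.emod_nonneg _ hpos.ne')]
  push_cast
  have h3 : x % (p : ℤ) ^ J = x - (p : ℤ) ^ J * (x / (p : ℤ) ^ J) := by
    have := Int.emod_add_mul_ediv x ((p : ℤ) ^ J)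
    linarith
  obtain ⟨v, hv⟩ : ∃ v, v = x / (p : ℤ) ^ J := ⟨_, rfl⟩
  rw [h3, ← hv]
  have e : α * (x - (p : ℤ) ^ J * v) ^ 2 + β * (x - (p : ℤ) ^ J * v) + γ =
      (α * x ^ 2 + β * x + γ) + (p : ℤ) ^ J * (-(v * (2 * α * x + β)) +
        α * (p : ℤ) ^ J * v ^ 2) := by ring
  rw [e]
  exact dvd_add hx' (Dvd.intro _ rfl)

theorem isBase_two {s : ℕ} (hs : 5 ≤ s) (h4 : ¬ 4 ∣ s) : IsBase s (fun a => 2 ^ a) where
  dvd_succ a := pow_dvd_pow 2 (Nat.le_succ a)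
  succ_le a := by
    show 2 ^ (a + 1) ≤ 3 * 2 ^ a
    rw [pow_succ]
    omega
  two_pow_le a := le_rfl
  zero_le := by norm_num
  practical a := by
    show Practical (2 ^ a)
    cases a with
    | zero => simpa using practical_one
    | succ i =>
      have h := practical_mul_pow practical_two (by norm_num : 1 ≤ 2) le_rfl i
      rwa [← pow_succ'] at h
  root a N := by
    show ∃ r : ℕ, ((2 * 2 ^ a : ℕ) : ℤ) ∣ G s N r
    rcases Nat.even_or_odd' s with ⟨k, hk | hk⟩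
    · -- `s = 2 k`, `k` odd
      obtain ⟨j, hj⟩ : ∃ j : ℕ, k = 2 * j + 1 := by
        rcases Nat.even_or_odd' k with ⟨j, hj | hj⟩
        · exfalso; apply h4; rw [hk, hj]; exact ⟨j, by ring⟩
        · exact ⟨j, hj⟩
      have hs' : (s : ℤ) = 4 * j + 2 := by
        rw [hk, hj]; push_cast; ring
      obtain ⟨x, hx⟩ := hensel_quad Nat.prime_two (2 * (j : ℤ)) (-(2 * (j : ℤ) - 1)) (-N) N
        (by
          have e : 2 * (j : ℤ) * N ^ 2 + -(2 * (j : ℤ) - 1) * N + -N =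
            ((2 : ℕ) : ℤ) * (j * (N ^ 2 - N)) := by push_cast; ring
          rw [e]; exact Dvd.intro _ rfl)
        (by
          intro h
          obtain ⟨c, hc⟩ := h
          push_cast at hc
          have : (1 : ℤ) = 2 * (c - 2 * j * N + j) := by linarith
          omega) a
      refine ⟨x, ?_⟩
      obtain ⟨c, hc⟩ := hx
      refine ⟨c, ?_⟩
      unfold G
      rw [hs']
      push_cast at hc ⊢
      linear_combination 2 * hc
    · have hs' : (s : ℤ) = 2 * k + 1 := by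
        rw [hk]; push_cast; ring
      obtain ⟨y, hy⟩ := hensel_quad Nat.prime_two (2 * (2 * (k : ℤ) - 1)) (-(2 * (k : ℤ) - 3))
        (-N) N
        (by
          have e : 2 * (2 * (k : ℤ) - 1) * N ^ 2 + -(2 * (k : ℤ) - 3) * N + -N =
            ((2 : ℕ) : ℤ) * ((2 * (k : ℤ) - 1) * N ^ 2 - (k - 1) * N) := by push_cast; ring
          rw [e]; exact Dvd.intro _ rfl)
        (by
          intro h
          obtain ⟨c, hc⟩ := h
          push_cast at hc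
          have : (1 : ℤ) = 2 * (c - 2 * (2 * k - 1) * N + k - 1) := by linarith
          omega) a
      refine ⟨2 * y, ?_⟩
      obtain ⟨c, hc⟩ := hy
      refine ⟨c, ?_⟩
      unfold G
      rw [hs']
      push_cast at hc ⊢
      linear_combination 2 * hc

theorem isBase_three {s : ℕ} (h : s % 12 = 8) : IsBase s (fun a => 2 * 3 ^ a) where
  dvd_succ a := Nat.mul_dvd_mul_left 2 (pow_dvd_pow 3 (Nat.le_succ a))
  succ_le a := by
    show 2 * 3 ^ (a + 1) ≤ 3 * (2 * 3 ^ a)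
    rw [pow_succ]
    omega
  two_pow_le a := by
    show 2 ^ a ≤ 2 * 3 ^ a
    have : 2 ^ a ≤ 3 ^ a := Nat.pow_le_pow_left (by norm_num) a
    omega
  zero_le := by norm_num
  practical a := by
    show Practical (2 * 3 ^ a)
    cases a with
    | zero => simpa using practical_two
    | succ i =>
      have h := practical_mul_pow practical_six (by norm_num : 1 ≤ 3) (by norm_num) i
      have e : 2 * 3 ^ (i + 1) = 6 * 3 ^ i := by rw [pow_succ]; ring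
      rw [e]; exact h
  root a N := by
    show ∃ r : ℕ, ((2 * (2 * 3 ^ a) : ℕ) : ℤ) ∣ G s N r
    obtain ⟨k, hk⟩ : ∃ k : ℕ, s = 12 * k + 8 := ⟨s / 12, by omega⟩
    have hs' : (s : ℤ) = 12 * k + 8 := by rw [hk]; push_cast; ring
    obtain ⟨x, hx⟩ := hensel_quad Nat.prime_three (6 * (k : ℤ) + 3) (-(6 * (k : ℤ) + 2)) (-N) N
      (by
        have e : (6 * (k : ℤ) + 3) * N ^ 2 + -(6 * (k : ℤ) + 2) * N + -N =
          ((3 : ℕ) : ℤ) * ((2 * k + 1) * (N ^ 2 - N)) := by push_cast; ring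
        rw [e]; exact Dvd.intro _ rfl)
      (by
        intro h
        obtain ⟨c, hc⟩ := h
        push_cast at hc
        have : (2 : ℤ) = 3 * (2 * (2 * k + 1) * N - 2 * k - c) := by linarith
        omega) a
    push_cast at hx
    -- adjust the parity
    obtain ⟨r, hr1, hr2⟩ : ∃ r : ℕ, (3 : ℤ) ^ a ∣ (r : ℤ) - x ∧ (2 : ℤ) ∣ (r : ℤ) - N := by
      by_cases hpar : (2 : ℤ) ∣ (x : ℤ) - N
      · exact ⟨x, by simp, hpar⟩
      · refine ⟨x + 3 ^ a, ?_, ?_⟩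
        · push_cast
          simp
        · have hodd : Odd ((3 : ℤ) ^ a) := Odd.pow (by decide)
          obtain ⟨m, hm⟩ := hodd
          push_cast
          rw [hm]
          omega
    refine ⟨r, ?_⟩
    have hP3 : (3 : ℤ) ^ a ∣ (6 * (k : ℤ) + 3) * (r : ℤ) ^ 2 - (6 * (k : ℤ) + 2) * r - N := by
      have e : (6 * (k : ℤ) + 3) * (r : ℤ) ^ 2 - (6 * (k : ℤ) + 2) * r - N =
        ((6 * (k : ℤ) + 3) * (x : ℤ) ^ 2 + -(6 * (k : ℤ) + 2) * x + -N) +
          ((r : ℤ) - x) * ((6 * (k : ℤ) + 3) * (r + x) - (6 * (k : ℤ) + 2)) := by ring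
      rw [e]
      exact dvd_add hx (hr1.mul_right _)
    have hP2 : (2 : ℤ) ∣ (6 * (k : ℤ) + 3) * (r : ℤ) ^ 2 - (6 * (k : ℤ) + 2) * r - N := by
      obtain ⟨c, hc⟩ := hr2
      have hr : (r : ℤ) = N + 2 * c := by linarith
      have hN : (2 : ℤ) ∣ N ^ 2 - N := by
        have : N ^ 2 - N = N * (N - 1) := by ring
        rw [this]
        rcases Int.even_or_odd N with ⟨n, hn⟩ | ⟨n, hn⟩
        · exact Dvd.dvd.mul_right ⟨n, by omega⟩ _
        · exact Dvd.dvd.mul_left ⟨n, by omega⟩ _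
      have e : (6 * (k : ℤ) + 3) * (r : ℤ) ^ 2 - (6 * (k : ℤ) + 2) * r - N =
        (6 * (k : ℤ) + 3) * (N ^ 2 - N) +
          2 * ((6 * (k : ℤ) + 3) * (2 * c * N + 2 * c ^ 2) - (6 * (k : ℤ) + 2) * c) := by
        rw [hr]; ring
      rw [e]
      exact dvd_add (hN.mul_left _) (Dvd.intro _ rfl)
    have hcop : IsCoprime (2 : ℤ) ((3 : ℤ) ^ a) := by
      apply IsCoprime.pow_right
      exact ⟨-1, 1, by norm_num⟩
    obtain ⟨c, hc⟩ := hcop.mul_dvd hP2 hP3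
    refine ⟨c, ?_⟩
    unfold G
    rw [hs']
    push_cast
    linear_combination 2 * hc

theorem good_of_dvd {s p : ℕ} (hs : 5 ≤ s) (hp : p.Prime) (hp2 : p ≠ 2) (hps : p ∣ s - 2)
    (g N : ℕ) : GoodQ s (p ^ g) N := by
  intro J
  have hps' : (p : ℤ) ∣ (s : ℤ) - 2 := by
    have h1 : ((s - 2 : ℕ) : ℤ) = (s : ℤ) - 2 := by push_cast [Nat.cast_sub (by omega : 2 ≤ s)]; ring
    rw [← h1]
    exact_mod_cast hps
  obtain ⟨x, hx⟩ := hensel_quad hp ((s : ℤ) - 2) (-((s : ℤ) - 4)) (-(2 * (N : ℤ))) N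
    (by
      have e : ((s : ℤ) - 2) * (N : ℤ) ^ 2 + -((s : ℤ) - 4) * N + -(2 * (N : ℤ)) =
        ((s : ℤ) - 2) * ((N : ℤ) ^ 2 - N) := by ring
      rw [e]; exact hps'.mul_right _)
    (by
      intro h
      have e : (2 : ℤ) = (2 * ((s : ℤ) - 2) * N + -((s : ℤ) - 4)) - ((s : ℤ) - 2) * (2 * N - 1) := by
        ring
      have h2 : (p : ℤ) ∣ 2 := by
        rw [e]; exact dvd_sub h (hps'.mul_right _)
      have h3 : p ∣ 2 := by exact_mod_cast h2
      exact hp2 ((Nat.prime_dvd_prime_iff_eq hp Nat.prime_two).mp h3)) (g * J)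
  refine ⟨x, ?_⟩
  rw [← pow_mul]
  unfold G
  have e : ((s : ℤ) - 2) * (x : ℤ) ^ 2 - ((s : ℤ) - 4) * x - 2 * N =
    ((s : ℤ) - 2) * (x : ℤ) ^ 2 + -((s : ℤ) - 4) * x + -(2 * (N : ℤ)) := by ring
  rw [e]; exact hx

theorem good_of_split {s p N : ℕ} (hp : p.Prime) (h : SplitAt s p N) : GoodQ s p N := by
  intro J
  obtain ⟨x₀, h0, h1⟩ := h
  obtain ⟨x, hx⟩ := hensel_quad hp ((s : ℤ) - 2) (-((s : ℤ) - 4)) (-(2 * (N : ℤ))) x₀
    (by
      have e : ((s : ℤ) - 2) * x₀ ^ 2 + -((s : ℤ) - 4) * x₀ + -(2 * (N : ℤ)) = G s N x₀ := by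
        unfold G; ring
      rw [e]; exact h0)
    (by
      intro h
      apply h1
      have e : 2 * ((s : ℤ) - 2) * x₀ - ((s : ℤ) - 4) =
        2 * ((s : ℤ) - 2) * x₀ + -((s : ℤ) - 4) := by ring
      rw [e]; exact h) J
  refine ⟨x, ?_⟩
  unfold G
  have e : ((s : ℤ) - 2) * (x : ℤ) ^ 2 - ((s : ℤ) - 4) * x - 2 * N =
    ((s : ℤ) - 2) * (x : ℤ) ^ 2 + -((s : ℤ) - 4) * x + -(2 * (N : ℤ)) := by ring
  rw [e]; exact hx

end Pool.Agent.Lib.MP_f8c884_nt
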