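import Pool.Agent.Lib.MP_f8c884_nt.Block
import Pool.Agent.Lib.MP_f8c884_nt.Bad
import Pool.Agent.Lib.MP_f8c884_nt.Roots

/-!
# From blocks to the interval `[0, X]`

`exc_le`: induction on `n`. If `X ≤ 3 T` then `exc s X ≤ X + 1`. Otherwise let `Y = (X + 2) / 3`:
`X ≤ 3 Y`, `T ≤ Y`, `Y < 2 ^ (n - 1)` (`2 Y ≤ X` for `X ≥ 4`), `exc s X ≤ exc s Y + blk s Y`.

`exists_R`: `R = Nat.sqrt (4 Y)`.

`blk_le_univ`: `GoodQ s q N` for all `N`, `block_count`.

`blk_le_split`: a non-representable `N ∈ (Y, 3 Y]` either has no split prime in `P`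
(`count_nosplit`) or is counted by `block_count` for some `q = p ∈ P` (`good_of_split`).
-/

set_option autoImplicit false

open Finset

namespace Pool.Agent.Lib.MP_f8c884_nt

private lemma exc_le_succ (s X : ℕ) : exc s X ≤ X + 1 := by
  classical
  unfold exc
  refine (Finset.card_filter_le _ _).trans ?_
  rw [Finset.card_range]

private lemma exc_split {s X Y : ℕ} (h : X ≤ 3 * Y) : exc s X ≤ exc s Y + blk s Y := by
  classical
  unfold exc blk
  refine (Finset.card_le_card ?_).trans (Finset.card_union_le _ _)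
  intro N hN
  simp only [Finset.mem_filter, Finset.mem_range, Finset.mem_union, Finset.mem_Ioc] at hN ⊢
  by_cases hNY : N ≤ Y
  · exact Or.inl ⟨by omega, hN.2⟩
  · exact Or.inr ⟨⟨by omega, by omega⟩, hN.2⟩

theorem exc_le {s T n X : ℕ} {E : ℝ} (hE : 0 ≤ E) (hT : 2 ≤ T)
    (h : ∀ Y, T ≤ Y → Y ≤ X → (blk s Y : ℝ) ≤ E) (hX : X < 2 ^ n) :
    (exc s X : ℝ) ≤ 3 * T + 1 + n * E := by
  induction n generalizing X with
  | zero =>
    have h0 : X = 0 := by simpa using hX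
    have h1 : (exc s X : ℝ) ≤ (X : ℝ) + 1 := by exact_mod_cast exc_le_succ s X
    rw [h0] at h1
    have h2 : (2:ℝ) ≤ T := by exact_mod_cast hT
    rw [h0]
    push_cast at h1 ⊢
    linarith
  | succ n ih =>
    have h2 : (2:ℝ) ≤ T := by exact_mod_cast hT
    by_cases hc : X ≤ 3 * T
    · have h1 : (exc s X : ℝ) ≤ (X : ℝ) + 1 := by exact_mod_cast exc_le_succ s X
      have h3 : (X : ℝ) ≤ 3 * T := by exact_mod_cast hc
      have h4 : 0 ≤ ((n + 1 : ℕ) : ℝ) * E := by positivity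
      linarith
    · have hY1 : X ≤ 3 * ((X + 2) / 3) := by omega
      have hY2 : T ≤ (X + 2) / 3 := by omega
      have hY3 : 2 * ((X + 2) / 3) ≤ X := by omega
      generalize (X + 2) / 3 = Y at hY1 hY2 hY3
      have hY4 : Y < 2 ^ n := by
        rw [pow_succ] at hX
        omega
      have h3 := ih (X := Y) (fun Z hZ hZY => h Z hZ (by omega)) hY4
      have h4 : (exc s X : ℝ) ≤ exc s Y + blk s Y := by exact_mod_cast exc_split hY1
      have h5 := h Y hY2 (by omega)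
      push_cast
      linarith

theorem exists_R {Y : ℕ} (hY : 20 ≤ Y) : ∃ R : ℕ, 3 * Y ≤ R ^ 2 ∧ R ^ 2 ≤ 4 * Y := by
  refine ⟨Nat.sqrt (4 * Y), ?_, Nat.sqrt_le' _⟩
  have h1 := Nat.lt_succ_sqrt' (4 * Y)
  have h2 := Nat.sqrt_le' (4 * Y)
  generalize Nat.sqrt (4 * Y) = R at h1 h2
  have h3 : 2 * R ≤ Y := by
    by_contra hc
    push Not at hc
    nlinarith
  have h4 : (R + 1) ^ 2 = R ^ 2 + 2 * R + 1 := by ring
  have h1' : 4 * Y < (R + 1) ^ 2 := h1
  omega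

theorem blk_le_univ {s : ℕ} (hs : 5 ≤ s) {B : ℕ → ℕ} (hB : IsBase s B) {q : ℕ} (hq : 6 * s ≤ q)
    (hcop : ∀ a, Nat.Coprime (2 * B a) q) (hgood : ∀ N, GoodQ s q N) {Y n : ℕ} (hY : 20 ≤ Y)
    (hn : 1 ≤ n) (hqn : (q ^ (n + 1)) ^ 2 ≤ 3 * Y) :
    (blk s Y : ℝ) ≤ 6 * Y * (1 - 1 / (12 * s)) ^ n := by
  classical
  obtain ⟨R, hR1, hR2⟩ := exists_R hY
  have hqR : q ^ (n + 1) ≤ R :=
    le_of_pow_le_pow_left₀ two_ne_zero (Nat.zero_le _) (hqn.trans hR1)
  have h := block_count hs hB hq hcop (Y := Y) (R := R) (n := n) (by omega) hR1 hR2 hn hqR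
  refine le_trans ?_ h
  unfold blk
  norm_cast
  refine Finset.card_le_card (fun N hN => ?_)
  simp only [Finset.mem_filter] at hN ⊢
  exact ⟨hN.1, hgood N, hN.2⟩

theorem blk_le_split {s : ℕ} (hs : 5 ≤ s) {B : ℕ → ℕ} (hB : IsBase s B) (P : Finset ℕ)
    (hP : ∀ p ∈ P, p.Prime ∧ 6 * s ≤ p) (hcop : ∀ p ∈ P, ∀ a, Nat.Coprime (2 * B a) p)
    {Y z n : ℕ} (hY : 20 ≤ Y) (hPz : ∀ p ∈ P, p ≤ z) (hQ : ∏ p ∈ P, p ≤ Y) (hn : 1 ≤ n)
    (hzn : (z ^ (n + 1)) ^ 2 ≤ 3 * Y) :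
    (blk s Y : ℝ) ≤ 3 * Y * (2 / 3) ^ P.card + z * (6 * Y * (1 - 1 / (12 * s)) ^ n) := by
  classical
  obtain ⟨R, hR1, hR2⟩ := exists_R hY
  have hs5 : (5:ℝ) ≤ s := by exact_mod_cast hs
  have hc0 : (0:ℝ) ≤ 1 - 1 / (12 * s) := by
    have : (1:ℝ) / (12 * s) ≤ 1 := by
      rw [div_le_one (by positivity)]
      linarith
    linarith
  have hblock : ∀ p ∈ P,
      (((Ioc Y (3 * Y)).filter (fun N => GoodQ s p N ∧ ¬ Representable s N)).card : ℝ) ≤
        6 * Y * (1 - 1 / (12 * s)) ^ n := by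
    intro p hp
    have hpR : p ^ (n + 1) ≤ R := by
      refine le_of_pow_le_pow_left₀ two_ne_zero (Nat.zero_le _) (le_trans ?_ (hzn.trans hR1))
      exact Nat.pow_le_pow_left (Nat.pow_le_pow_left (hPz p hp) _) _
    exact block_count hs hB (hP p hp).2 (hcop p hp) (Y := Y) (R := R) (n := n) (by omega)
      hR1 hR2 hn hpR
  have hcard : P.card ≤ z := by
    have : P ⊆ Finset.Icc 1 z := fun p hp =>
      Finset.mem_Icc.mpr ⟨(hP p hp).1.one_le, hPz p hp⟩
    calc P.card ≤ (Finset.Icc 1 z).card := Finset.card_le_card this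
      _ = z := by simp
  have hsub : (Ioc Y (3 * Y)).filter (fun N => ¬ Representable s N) ⊆
      (Ioc Y (3 * Y)).filter (fun N => ∀ p ∈ P, ¬ SplitAt s p N) ∪
        P.biUnion (fun p => (Ioc Y (3 * Y)).filter
          (fun N => GoodQ s p N ∧ ¬ Representable s N)) := by
    intro N hN
    simp only [Finset.mem_filter, Finset.mem_union, Finset.mem_biUnion] at hN ⊢
    by_cases hall : ∀ p ∈ P, ¬ SplitAt s p N
    · exact Or.inl ⟨hN.1, hall⟩
    · push Not at hall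
      obtain ⟨p, hp, hsp⟩ := hall
      exact Or.inr ⟨p, hp, hN.1, good_of_split (hP p hp).1 hsp, hN.2⟩
  have h1 : (blk s Y : ℝ) ≤
      (((Ioc Y (3 * Y)).filter (fun N => ∀ p ∈ P, ¬ SplitAt s p N)).card : ℝ) +
        ∑ p ∈ P, (((Ioc Y (3 * Y)).filter
          (fun N => GoodQ s p N ∧ ¬ Representable s N)).card : ℝ) := by
    have h2 : blk s Y ≤ ((Ioc Y (3 * Y)).filter (fun N => ∀ p ∈ P, ¬ SplitAt s p N)).card +
        ∑ p ∈ P, ((Ioc Y (3 * Y)).filter
          (fun N => GoodQ s p N ∧ ¬ Representable s N)).card := by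
      unfold blk
      refine (Finset.card_le_card hsub).trans ((Finset.card_union_le _ _).trans ?_)
      exact Nat.add_le_add_left Finset.card_biUnion_le _
    exact_mod_cast h2
  refine h1.trans (add_le_add ?_ ?_)
  · have := count_nosplit hs P hP (Y := Y) hQ
    convert this
  · calc ∑ p ∈ P, (((Ioc Y (3 * Y)).filter
          (fun N => GoodQ s p N ∧ ¬ Representable s N)).card : ℝ)
        ≤ ∑ _p ∈ P, 6 * Y * (1 - 1 / (12 * s : ℝ)) ^ n := Finset.sum_le_sum hblock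
      _ = P.card * (6 * Y * (1 - 1 / (12 * s : ℝ)) ^ n) := by
          rw [Finset.sum_const, nsmul_eq_mul]
      _ ≤ z * (6 * Y * (1 - 1 / (12 * s)) ^ n) := by
          refine mul_le_mul_of_nonneg_right (by exact_mod_cast hcard) ?_
          exact mul_nonneg (by positivity) (pow_nonneg hc0 _)

end Pool.Agent.Lib.MP_f8c884_nt
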