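import Mathlib

/-!
# MP_f8c884_nt (helper4): practical number + polygonal number, almost all integers

Definitions.
-/

set_option autoImplicit false

namespace Pool.Agent.Lib.MP_f8c884_nt

/-- A positive integer `n` is practical if every `1 ≤ m ≤ n` is a sum of distinct positive
divisors of `n`. -/
def Practical (n : ℕ) : Prop :=
  0 < n ∧ ∀ m, 1 ≤ m → m ≤ n → ∃ S ⊆ n.divisors, ∑ d ∈ S, d = m

/-- The `s`-gonal number `P_s(k) = ((s - 2) k² - (s - 4) k) / 2` (used for `s ≥ 5`). -/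
def polygonal (s k : ℕ) : ℕ := ((s - 2) * k ^ 2 - (s - 4) * k) / 2

/-- `N = p + P_s(k)` with `p` practical and `k ≥ 1`. -/
def Representable (s N : ℕ) : Prop :=
  ∃ p k : ℕ, Practical p ∧ 1 ≤ k ∧ N = p + polygonal s k

open Classical in
/-- the number of natural numbers `N ≤ X` which are not `s`-representable -/
noncomputable def exc (s X : ℕ) : ℕ :=
  ((Finset.range (X + 1)).filter (fun N => ¬ Representable s N)).card

/-- `2 (P_s(x) - N)` as a polynomial in `x` -/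
def G (s : ℕ) (N x : ℤ) : ℤ := ((s : ℤ) - 2) * x ^ 2 - ((s : ℤ) - 4) * x - 2 * N

/-- the congruence `G s N x ≡ 0` is solvable modulo all powers of `q` -/
def GoodQ (s q N : ℕ) : Prop := ∀ J : ℕ, ∃ l : ℕ, ((q ^ J : ℕ) : ℤ) ∣ G s N l

/-- the congruence `G s N x ≡ 0 (mod p)` has a simple root -/
def SplitAt (s p N : ℕ) : Prop :=
  ∃ x : ℤ, (p : ℤ) ∣ G s N x ∧ ¬ (p : ℤ) ∣ 2 * ((s : ℤ) - 2) * x - ((s : ℤ) - 4)

/-- a sequence of practical base moduli (`2 ^ a` or `2 * 3 ^ a`) -/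
structure IsBase (s : ℕ) (B : ℕ → ℕ) : Prop where
  dvd_succ : ∀ a, B a ∣ B (a + 1)
  succ_le : ∀ a, B (a + 1) ≤ 3 * B a
  two_pow_le : ∀ a, 2 ^ a ≤ B a
  zero_le : B 0 ≤ 2
  practical : ∀ a, Practical (B a)
  root : ∀ (a : ℕ) (N : ℤ), ∃ r : ℕ, ((2 * B a : ℕ) : ℤ) ∣ G s N r

open Classical in
/-- the number of `N ∈ (Y, 3 Y]` which are not `s`-representable -/
noncomputable def blk (s Y : ℕ) : ℕ :=
  ((Finset.Ioc Y (3 * Y)).filter (fun N => ¬ Representable s N)).card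

end Pool.Agent.Lib.MP_f8c884_nt
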