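import Pool.Agent.Lib.MP_f8c884_nt.AsymA
import Pool.Agent.Lib.MP_f8c884_nt.AsymB

/-!
# Main theorem
-/

set_option autoImplicit false

open Finset

namespace Pool.Agent.Lib.MP_f8c884_nt

theorem main {s : ℕ} (hs : 3 < s) (h0 : s % 12 ≠ 0) (h4 : s % 12 ≠ 4) :
    (∃ c : ℝ, 0 < c ∧ ∃ X₀ : ℕ, ∀ X : ℕ, X₀ ≤ X →
      (exc s X : ℝ) ≤ (X : ℝ) ^ (1 - c / Real.log (Real.log X))) ∧
    ((∃ p : ℕ, p.Prime ∧ p ≠ 2 ∧ p ∣ s - 2 ∧ (4 ∣ s → p ≠ 3)) →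
      ∃ c : ℝ, 0 < c ∧ ∃ X₀ : ℕ, ∀ X : ℕ, X₀ ≤ X → (exc s X : ℝ) ≤ (X : ℝ) ^ (1 - c)) := by
  have hs5 : 5 ≤ s := by omega
  by_cases h : 4 ∣ s
  · have h8 : s % 12 = 8 := by omega
    have hB := isBase_three h8
    have hcop : ∀ p, p.Prime → p ≠ 2 → p ≠ 3 → ∀ a, Nat.Coprime (2 * (2 * 3 ^ a)) p := by
      intro p hp h2 h3 a
      have c2 : Nat.Coprime 2 p := (Nat.coprime_primes Nat.prime_two hp).2 (Ne.symm h2)
      have c3 : Nat.Coprime 3 p := (Nat.coprime_primes Nat.prime_three hp).2 (Ne.symm h3)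
      exact Nat.Coprime.mul_left c2 (Nat.Coprime.mul_left c2 (Nat.Coprime.pow_left a c3))
    refine ⟨exc_general hs5 hB fun p hp hps a => hcop p hp (by omega) (by omega) a, ?_⟩
    rintro ⟨p, hp, hp2, hps, hp3⟩
    have hlt : 6 * s ≤ p ^ (6 * s) := (Nat.lt_pow_self hp.one_lt).le
    refine exc_power hs5 hB hlt (fun a => ?_) (fun N => good_of_dvd hs5 hp hp2 hps _ N)
    exact Nat.Coprime.pow_right _ (hcop p hp hp2 (hp3 h) a)
  · have hB := isBase_two hs5 h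
    have hcop : ∀ p, p.Prime → p ≠ 2 → ∀ a, Nat.Coprime (2 * 2 ^ a) p := by
      intro p hp h2 a
      have c2 : Nat.Coprime 2 p := (Nat.coprime_primes Nat.prime_two hp).2 (Ne.symm h2)
      exact Nat.Coprime.mul_left c2 (Nat.Coprime.pow_left a c2)
    refine ⟨exc_general hs5 hB fun p hp hps a => hcop p hp (by omega) a, ?_⟩
    rintro ⟨p, hp, hp2, hps, -⟩
    have hlt : 6 * s ≤ p ^ (6 * s) := (Nat.lt_pow_self hp.one_lt).le
    refine exc_power hs5 hB hlt (fun a => ?_) (fun N => good_of_dvd hs5 hp hp2 hps _ N)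
    exact Nat.Coprime.pow_right _ (hcop p hp hp2 a)

end Pool.Agent.Lib.MP_f8c884_nt
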