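import Pool.Agent.Lib.MP_f8c884_nt.Defs

/-!
# Practical numbers

`practical_mul`: `M` practical, `1 ≤ m ≤ M` implies `M * m` practical. For `1 ≤ x ≤ M m` write
`x = m y + r`, `0 ≤ r < m`, `y ≤ M`. `y` is a sum over `S ⊆ divisors M` and `r` a sum over
`T ⊆ divisors M` (`S = ∅` if `y = 0`, `T = ∅` if `r = 0`); `x = ∑_{d ∈ S} m d + ∑_{e ∈ T} e`. These are
divisors of `M m`, and the two sets `m S`, `T` are disjoint since `e ≤ r < m ≤ m d`.

`practical_mul_pow`: iterate with `m = q`.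

`rep_of_root`: `2 P_s(k) - 2 N = G s N k` (the numerator of `P_s(k)` is even and nonnegative for
`k ≥ 1`), so `M ∣ N - P_s(k) > 0`, `N - P_s(k) = M m`, `1 ≤ m ≤ M`; `practical_mul`.
-/

set_option autoImplicit false

open Finset

namespace Pool.Agent.Lib.MP_f8c884_nt

theorem practical_one : Practical 1 := by
  refine ⟨one_pos, fun m h1 h2 => ⟨{1}, by decide, ?_⟩⟩
  rw [sum_singleton]
  omega

theorem practical_two : Practical 2 := by
  refine ⟨two_pos, fun m h1 h2 => ?_⟩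
  interval_cases m
  · exact ⟨{1}, by decide, by decide⟩
  · exact ⟨{2}, by decide, by decide⟩

theorem practical_six : Practical 6 := by
  refine ⟨by norm_num, fun m h1 h2 => ?_⟩
  interval_cases m
  · exact ⟨{1}, by decide, by decide⟩
  · exact ⟨{2}, by decide, by decide⟩
  · exact ⟨{3}, by decide, by decide⟩
  · exact ⟨{1, 3}, by decide, by decide⟩
  · exact ⟨{2, 3}, by decide, by decide⟩
  · exact ⟨{6}, by decide, by decide⟩

private theorem pr_sub {M y : ℕ} (hM : Practical M) (hy : y ≤ M) :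
    ∃ S ⊆ M.divisors, ∑ d ∈ S, d = y := by
  rcases Nat.eq_zero_or_pos y with h | h
  · exact ⟨∅, empty_subset _, by rw [sum_empty, h]⟩
  · exact hM.2 y h hy

theorem practical_mul {M m : ℕ} (hM : Practical M) (h1 : 1 ≤ m) (hm : m ≤ M) :
    Practical (M * m) := by
  have hM0 : 0 < M := hM.1
  refine ⟨Nat.mul_pos hM0 h1, fun x hx1 hx2 => ?_⟩
  have hy : x / m ≤ M := Nat.div_le_of_le_mul (by rw [Nat.mul_comm]; exact hx2)
  have hr : x % m < m := Nat.mod_lt _ h1
  obtain ⟨S, hS, hSs⟩ := pr_sub hM hy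
  obtain ⟨T, hT, hTs⟩ := pr_sub hM (hr.le.trans hm)
  have hMm : M * m ≠ 0 := (Nat.mul_pos hM0 h1).ne'
  have hinj : Function.Injective (fun d : ℕ => m * d) := fun a b h => Nat.eq_of_mul_eq_mul_left h1 h
  have hdisj : Disjoint (S.image fun d => m * d) T := by
    rw [disjoint_left]
    intro e he heT
    obtain ⟨d, hd, rfl⟩ := mem_image.1 he
    have hd1 : 1 ≤ d := Nat.pos_of_mem_divisors (hS hd)
    have h2 : m * d ≤ x % m := by
      rw [← hTs]
      exact single_le_sum (f := fun i : ℕ => i) (fun _ _ => Nat.zero_le _) heT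
    have h3 : m ≤ m * d := Nat.le_mul_of_pos_right m hd1
    omega
  refine ⟨(S.image fun d => m * d) ∪ T, ?_, ?_⟩
  · apply union_subset
    · intro e he
      obtain ⟨d, hd, rfl⟩ := mem_image.1 he
      rw [Nat.mem_divisors]
      refine ⟨?_, hMm⟩
      rw [Nat.mul_comm M m]
      exact Nat.mul_dvd_mul_left m (Nat.dvd_of_mem_divisors (hS hd))
    · intro e he
      rw [Nat.mem_divisors]
      exact ⟨Dvd.dvd.mul_right (Nat.dvd_of_mem_divisors (hT he)) m, hMm⟩
  · rw [sum_union hdisj, sum_image (fun a _ b _ h => hinj h), ← mul_sum, hSs, hTs]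
    exact Nat.div_add_mod x m

theorem practical_mul_pow {M q : ℕ} (hM : Practical M) (h1 : 1 ≤ q) (hq : q ≤ M) (i : ℕ) :
    Practical (M * q ^ i) := by
  induction i with
  | zero => simpa using hM
  | succ i ih =>
    rw [pow_succ, ← Nat.mul_assoc]
    exact practical_mul ih h1 (hq.trans (Nat.le_mul_of_pos_right M (Nat.pow_pos h1)))

theorem two_mul_polygonal {s k : ℕ} (hs : 5 ≤ s) (hk : 1 ≤ k) :
    2 * (polygonal s k : ℤ) = ((s : ℤ) - 2) * (k : ℤ) ^ 2 - ((s : ℤ) - 4) * k := by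
  obtain ⟨t, rfl⟩ : ∃ t, s = t + 5 := ⟨s - 5, by omega⟩
  obtain ⟨j', rfl⟩ : ∃ j', k = j' + 1 := ⟨k - 1, by omega⟩
  obtain ⟨j, hj⟩ := Nat.even_mul_succ_self j'
  have h1 : polygonal (t + 5) (j' + 1) = (t + 1) * j + (j' + 1) ^ 2 := by
    unfold polygonal
    have e1 : t + 5 - 2 = t + 3 := by omega
    have e2 : t + 5 - 4 = t + 1 := by omega
    rw [e1, e2]
    have e3 : (t + 3) * (j' + 1) ^ 2 = 2 * ((t + 1) * j + (j' + 1) ^ 2) + (t + 1) * (j' + 1) := by
      have : (t + 3) * (j' + 1) ^ 2 = (t + 1) * (j' * (j' + 1)) + 2 * (j' + 1) ^ 2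
        + (t + 1) * (j' + 1) := by ring
      rw [this, hj]
      ring
    rw [e3, Nat.add_sub_cancel, Nat.mul_div_cancel_left _ two_pos]
  rw [h1]
  have hj' : (j' : ℤ) * (j' + 1) = j + j := by exact_mod_cast hj
  push_cast
  linear_combination (-(t : ℤ) - 1) * hj'

theorem rep_of_root {s N M k : ℕ} (hs : 5 ≤ s) (hM : Practical M) (hk : 1 ≤ k)
    (hdvd : ((2 * M : ℕ) : ℤ) ∣ G s N k) (hlt : polygonal s k < N) (hle : N ≤ M ^ 2) :
    Representable s N := by
  have hM0 : 0 < M := hM.1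
  have h2 := two_mul_polygonal hs hk
  have h3 : G s N k = 2 * (-((N - polygonal s k : ℕ) : ℤ)) := by
    rw [Nat.cast_sub hlt.le]
    unfold G
    linear_combination -h2
  rw [h3, Nat.cast_mul, Nat.cast_ofNat] at hdvd
  have h4 : (M : ℤ) ∣ ((N - polygonal s k : ℕ) : ℤ) :=
    (Int.dvd_neg).1 (Int.dvd_of_mul_dvd_mul_left two_ne_zero hdvd)
  have h5 : M ∣ N - polygonal s k := Int.natCast_dvd_natCast.1 h4
  obtain ⟨m, hm⟩ := h5
  have hm1 : 1 ≤ m := by
    rcases Nat.eq_zero_or_pos m with h | h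
    · rw [h, Nat.mul_zero] at hm
      omega
    · exact h
  have hm2 : m ≤ M := by
    have : M * m ≤ M * M := by
      rw [← hm, ← sq]
      omega
    exact Nat.le_of_mul_le_mul_left this hM0
  refine ⟨M * m, k, practical_mul hM hm1 hm2, hk, ?_⟩
  omega

end Pool.Agent.Lib.MP_f8c884_nt
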